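import Pool.Agent.UltPos.Narrow

/-! Exceptional residue classes: asymptotically the square of a sum of two cosines. -/

set_option autoImplicit false

namespace Pool.Agent.UltPos

open Filter Topology

/-- The class `J` modulo `N` is *exceptional*: for some `ρ > 0` the quotient `v(Nm+J) / ρ^m`
is asymptotic to `(Re (α x^m) + Re (β y^m))^2`, where `α`, `β` are nonzero and `x`, `y` have modulus
one and are multiplicatively independent. -/
def ExcAt (v : ℕ → ℝ) (N J : ℕ) : Prop :=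
  ∃ (ρ : ℝ) (α β x y : ℂ), 0 < ρ ∧ α ≠ 0 ∧ β ≠ 0 ∧ ‖x‖ = 1 ∧ ‖y‖ = 1 ∧
    (∀ a b : ℤ, x ^ a * y ^ b = 1 → a = 0 ∧ b = 0) ∧
    Tendsto (fun m : ℕ => v (N * m + J) / ρ ^ m - ((α * x ^ m).re + (β * y ^ m).re) ^ 2) atTop
      (𝓝 0)

/-- The sequence of the instance is exceptional: some residue class is exceptional. -/
def Inst.Exceptional (I : Inst) : Prop :=
  ∃ v : ℕ → ℚ, I.IsSeq v ∧ ∃ N J : ℕ, 0 < N ∧ ExcAt (fun n => (v n : ℝ)) N J

end Pool.Agent.UltPos
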