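import Pool.Agent.DD7719.NPos
import Pool.Agent.MX.Defs
import Pool.Agent.DD7719.NSound

/-! U2. Narrow classes have narrow level functions. -/

set_option autoImplicit false

namespace Pool.Agent.DD7719.M

open Complex Filter Topology GS

variable {k : ℕ}

/-- **Narrow classes.** Adapt `nn_sound_cls` (there `v` is positive; here ultimately positive, and a
single class). With `N = n0`, `nar_cls` gives the approximation property `happ` (its hypothesis
`hnot` from `liminf ≠ 0` (so `> 0`) or from `contact_infinite`). If the liminf is positive, a zero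
of the level function contradicts `happ`. Otherwise `contact_of_zero` puts the image into the
finite contact set. -/
theorem case_of_narrow (l c : Fin k → ℂ) (ex : Fin k → ℕ) (R M Nb : ℕ) (ε δ : ℝ) (v : ℕ → ℝ)
    (hg : GoodD k l c ex R M ε δ v) (hup : ∃ N0, ∀ n, N0 ≤ n → 0 < v n)
    (n0 j : ℕ) (A H : Fin k → Fin k → ℤ) (D : ℤ) (s : ℕ) (w : Fin k → Fin k → ℝ)
    (τ : Fin k → ℝ) (i0 : Fin k) (hbase : BaseF k l c ex M Nb ε δ n0 j A H D s w τ ‖l i0‖ 0)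
    (hi0 : l i0 ≠ 0) (z' : Fin k → ℂ) (hz' : ∀ t, ‖z' t‖ = 1)
    (hne : (LevF l c ex A s j 0 ‖l i0‖ z').re ≠ 0)
    (hF : ∀ z : Fin k → ℂ, (∀ t, ‖z t‖ = 1) → 0 ≤ (LevF l c ex A s j 0 ‖l i0‖ z).re)
    (hnar : UltPos.ClassNarrow v (Set.range l) n0 (j % n0)) :
    (∀ z : Fin k → ℂ, (∀ t, ‖z t‖ = 1) → 0 < (LevF l c ex A s j 0 ‖l i0‖ z).re) ∨
      ∃ i i', ‖l i‖ = ‖l i'‖ ∧ l i ^ n0 ≠ l i' ^ n0 ∧
        ((fun z : Fin k → ℂ => (l i / l i') ^ j * (Wt A s z i / Wt A s z i')) ''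
        {z | (∀ t, ‖z t‖ = 1) ∧ (LevF l c ex A s j 0 ‖l i0‖ z).re = 0}).Finite := by
  classical
  obtain ⟨N0, hN0⟩ := hup
  obtain ⟨ρJ, hρJ, ⟨B, hB⟩, hnar⟩ := hnar
  have hn0 : 0 < n0 := hbase.1
  have hge : ∀ᶠ m : ℕ in atTop, 0 ≤ v (n0 * m + j % n0) / ρJ ^ m := by
    filter_upwards [eventually_ge_atTop N0] with m hm
    refine div_nonneg (hN0 _ ?_).le (by positivity)
    exact (hm.trans (Nat.le_mul_of_pos_left m hn0)).trans (Nat.le_add_right _ _)
  have hle : ∀ m : ℕ, v (n0 * m + j % n0) / ρJ ^ m ≤ B := by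
    intro m
    rw [div_le_iff₀ (by positivity)]
    exact (le_abs_self _).trans (hB m)
  have hbelow : IsBoundedUnder (· ≥ ·) atTop (fun m : ℕ => v (n0 * m + j % n0) / ρJ ^ m) :=
    ⟨0, eventually_map.mpr hge⟩
  have habove : IsCoboundedUnder (· ≥ ·) atTop (fun m : ℕ => v (n0 * m + j % n0) / ρJ ^ m) :=
    IsBoundedUnder.isCoboundedUnder_ge ⟨B, eventually_map.mpr (Eventually.of_forall hle)⟩
  have hev : liminf (fun m : ℕ => v (n0 * m + j % n0) / ρJ ^ m) atTop ≠ 0 →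
      0 < liminf (fun m : ℕ => v (n0 * m + j % n0) / ρJ ^ m) atTop ∧
      ∀ᶠ m : ℕ in atTop, liminf (fun m : ℕ => v (n0 * m + j % n0) / ρJ ^ m) atTop / 2 <
        v (n0 * m + j % n0) / ρJ ^ m := by
    intro hl
    have hl0 : 0 ≤ liminf (fun m : ℕ => v (n0 * m + j % n0) / ρJ ^ m) atTop :=
      le_liminf_of_le habove hge
    have hl1 : 0 < liminf (fun m : ℕ => v (n0 * m + j % n0) / ρJ ^ m) atTop :=
      lt_of_le_of_ne hl0 hl.symm
    exact ⟨hl1, eventually_lt_of_lt_liminf (half_lt_self hl1) hbelow⟩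
  have hnot : ∀ a0 b0 : ℕ, 0 < b0 → ¬ Tendsto (fun n : ℕ => v (n0 * (a0 + b0 * n) + j % n0) /
      ρJ ^ (a0 + b0 * n)) atTop (𝓝 0) := by
    intro a0 b0 hb0 hten
    rcases hnar with hl | ⟨a, _, b, _, hab, hnt, hfin⟩
    · obtain ⟨hl1, hev⟩ := hev hl
      have hsub : Tendsto (fun n : ℕ => a0 + b0 * n) atTop atTop :=
        tendsto_atTop_mono (fun n => (Nat.le_mul_of_pos_left n hb0).trans (Nat.le_add_left _ _))
          tendsto_id
      have h1 := hsub.eventually hev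
      have h2 := hten.eventually_lt_const (half_pos hl1)
      obtain ⟨n, h3, h4⟩ := (h1.and h2).exists
      exact lt_asymm h3 h4
    · have hb0' : b ≠ 0 := by
        rintro rfl
        rw [norm_zero, norm_eq_zero] at hab
        exact hnt 1 one_pos (by rw [hab])
      refine contact_infinite v n0 (j % n0) hn0 ρJ (a / b) (unit_of_ratio _ _ hab hb0') ?_ a0 b0
        hb0 hten hfin
      intro n hn h1
      rw [div_pow, div_eq_one_iff_eq (pow_ne_zero _ hb0')] at h1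
      exact hnt n hn h1
  obtain ⟨-, happ⟩ := nar_cls l c ex R M Nb ε δ v hg n0 j A H D s w τ ‖l i0‖ 0 hbase
    (norm_pos_iff.mpr hi0) z' hz' hne n0 hn0 ρJ B hρJ hB (hnot (j / n0) n0 hn0)
  rcases hnar with hl | ⟨a, ⟨i, rfl⟩, b, ⟨i', rfl⟩, hab, hnt, hfin⟩
  · left
    intro z hz
    refine lt_of_le_of_ne (hF z hz) fun h0 => ?_
    obtain ⟨hl1, hev⟩ := hev hl
    obtain ⟨N1, hN1⟩ := eventually_atTop.1 hev
    obtain ⟨m, hm, h1, -⟩ := happ z hz
      (liminf (fun m : ℕ => v (n0 * m + j % n0) / ρJ ^ m) atTop / 2) (half_pos hl1) N1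
    rw [← h0, zero_div, sub_zero] at h1
    exact absurd ((le_abs_self _).trans h1) (not_le.2 (hN1 m hm))
  · right
    have hb0' : l i' ≠ 0 := by
      intro h
      rw [h, norm_zero, norm_eq_zero] at hab
      exact hnt 1 one_pos (by rw [hab, h])
    refine ⟨i, i', hab, hnt n0 hn0, hfin.subset ?_⟩
    rintro _ ⟨z, ⟨hz, h0⟩, rfl⟩
    exact contact_of_zero l c ex v n0 j ρJ A s 0 ‖l i0‖ i i' hab hb0' happ z hz h0

/-- monotonicity of the bounds in `BaseF` -/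
theorem BaseF.mono {l c : Fin k → ℂ} {ex : Fin k → ℕ} {M M' Nb Nb' : ℕ} {ε δ : ℝ}
    {n0 j : ℕ} {A H : Fin k → Fin k → ℤ} {D : ℤ} {s : ℕ} {w : Fin k → Fin k → ℝ}
    {τ : Fin k → ℝ} {ρ : ℝ} {d : ℕ} (h : BaseF k l c ex M Nb ε δ n0 j A H D s w τ ρ d)
    (hM : M ≤ M') (hNb : Nb ≤ Nb') : BaseF k l c ex M' Nb' ε δ n0 j A H D s w τ ρ d := by
  obtain ⟨h1, h2, h3, h4, h5, h6, h7, h8, h9, h10, h11⟩ := h
  have hMZ : (M : ℤ) ≤ M' := by exact_mod_cast hM
  exact ⟨h1, h2.trans hNb, h3, h4, h5, h6, h7.trans hMZ, h8, fun a b => (h9 a b).trans hMZ,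
    fun a b => (h10 a b).trans hMZ, h11⟩

end Pool.Agent.DD7719.M
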