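import Pool.Agent.O9.Structure
import Pool.Agent.DD7719.CertComplete

/-! U3. All roots on one circle. -/

set_option autoImplicit false

namespace Pool.Agent.O9

open Filter Topology Finset UltPos Pool.Agent.DD7719.M

/-- **Nonnegativity.** If all roots have modulus `r > 0` and the sequence is ultimately positive it
is nonnegative everywhere: `v n / r^n` is almost periodic. (`exists_n0` with `e = N0 + 1` gives
`t ≥ 1` with `‖(l i / r)^(e t) - 1‖ ≤ 7 / Q'`; compare the values at `n` and `n + e t`.) -/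
theorem nonneg_of_circle {k : ℕ} (l c : Fin k → ℂ) (v : ℕ → ℝ)
    (hv : ∀ n, ∑ i, c i * l i ^ n = (v n : ℂ)) (r : ℝ) (hr : 0 < r) (hl : ∀ i, ‖l i‖ = r)
    (hup : ∃ N0, ∀ n, N0 ≤ n → 0 < v n) (n : ℕ) : 0 ≤ v n := by
  by_contra hneg
  push Not at hneg
  obtain ⟨N0, hN0⟩ := hup
  have hrC : (r : ℂ) ≠ 0 := by exact_mod_cast hr.ne'
  set ν : Fin k → ℂ := fun i => l i / r with hν
  have hν1 : ∀ i, ‖ν i‖ = 1 := by
    intro i
    rw [hν]
    simp only [norm_div, hl, Complex.norm_real, Real.norm_of_nonneg hr.le]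
    exact div_self hr.ne'
  have hlν : ∀ i, l i = r * ν i := by
    intro i
    rw [hν]
    field_simp
  have hval : ∀ m, ∑ i, c i * ν i ^ m = ((v m / r ^ m : ℝ) : ℂ) := by
    intro m
    push_cast
    rw [← hv m, Finset.sum_div]
    refine Finset.sum_congr rfl fun i _ => ?_
    rw [hlν i, mul_pow]
    field_simp
  set a : ℝ := -(v n / r ^ n) with ha
  have ha0 : 0 < a := by
    rw [ha, neg_pos]
    exact div_neg_of_neg_of_pos hneg (pow_pos hr n)
  set C : ℝ := ∑ i, ‖c i‖ with hC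
  have hC0 : 0 ≤ C := Finset.sum_nonneg fun i _ => norm_nonneg _
  obtain ⟨Q', hQ'⟩ := exists_nat_gt (7 * C / a)
  have hQ0 : 0 < Q' := by
    have h1 : (0 : ℝ) ≤ 7 * C / a := by positivity
    exact_mod_cast lt_of_le_of_lt h1 hQ'
  obtain ⟨t, ht, _, hcl⟩ := exists_n0 ν hν1 (N0 + 1) Q' hQ0
  have hpos : 0 < v (n + (N0 + 1) * t) := by
    apply hN0
    have : N0 + 1 ≤ (N0 + 1) * t := Nat.le_mul_of_pos_right _ ht
    omega
  have hQR : (0 : ℝ) < Q' := by exact_mod_cast hQ0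
  have hdiff : ‖∑ i, c i * ν i ^ (n + (N0 + 1) * t) - ∑ i, c i * ν i ^ n‖ ≤ C * (7 / Q') := by
    rw [← Finset.sum_sub_distrib, hC, Finset.sum_mul]
    refine (norm_sum_le _ _).trans (Finset.sum_le_sum fun i _ => ?_)
    have e1 : c i * ν i ^ (n + (N0 + 1) * t) - c i * ν i ^ n =
        c i * ν i ^ n * (ν i ^ ((N0 + 1) * t) - 1) := by ring
    rw [e1, norm_mul, norm_mul, norm_pow, hν1, one_pow, mul_one]
    exact mul_le_mul_of_nonneg_left (hcl i) (norm_nonneg _)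
  rw [hval, hval, ← Complex.ofReal_sub, Complex.norm_real, Real.norm_eq_abs] at hdiff
  have h1 : 0 < v (n + (N0 + 1) * t) / r ^ (n + (N0 + 1) * t) := div_pos hpos (pow_pos hr _)
  have h2 := (abs_le.1 hdiff).2
  have h3 : C * (7 / Q') < a := by
    rw [div_lt_iff₀ ha0] at hQ'
    rw [← mul_div_assoc, div_lt_iff₀ hQR]
    linarith
  rw [ha] at h3
  linarith

/-- **The roots of an exceptional sequence of order at most nine**: `k = 9`, one circle, and a ratio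
that is not a root of unity (`exc_structure`; `l (e 1) ^ N / l (e 2) ^ N = x ^ 4`). -/
theorem exc_pair {k : ℕ} (hk : k ≤ 9) (l c : Fin k → ℂ) (v : ℕ → ℝ)
    (hv : ∀ n, ∑ i, c i * l i ^ n = (v n : ℂ)) (N J : ℕ) (hN : 0 < N) (h : ExcAt v N J) :
    (∃ r : ℝ, 0 < r ∧ ∀ i, ‖l i‖ = r) ∧
      ∃ i i', ‖l i‖ = ‖l i'‖ ∧ ∀ n : ℕ, 0 < n → l i ^ n ≠ l i' ^ n := by
  obtain ⟨r, e, α, β, x, y, hr, _, _, hx, _, hxy, _, hl, hlN, _⟩ :=
    exc_structure hk l c v hv N J hN h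
  refine ⟨⟨r, hr, hl⟩, e 1, e 2, by rw [hl, hl], fun n hn heq => ?_⟩
  have hx0 : x ≠ 0 := by
    intro h; rw [h] at hx; simp at hx
  have hrC : (r : ℂ) ≠ 0 := by exact_mod_cast hr.ne'
  have h1 := hlN 1
  have h2 := hlN 2
  have c1 : chr x y 1 = x ^ 2 := rfl
  have c2 : chr x y 2 = x⁻¹ ^ 2 := rfl
  rw [c1] at h1
  rw [c2] at h2
  have h3 : (l (e 1) ^ N) ^ n = (l (e 2) ^ N) ^ n := by
    rw [← pow_mul, mul_comm, pow_mul, heq, ← pow_mul, mul_comm, pow_mul]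
  rw [h1, h2, mul_pow, mul_pow] at h3
  have h4 := mul_left_cancel₀ (pow_ne_zero n (pow_ne_zero N hrC)) h3
  have h5 : x ^ ((4 * n : ℕ) : ℤ) * y ^ (0 : ℤ) = 1 := by
    rw [zpow_zero, mul_one, zpow_natCast]
    have h6 : x ^ (4 * n) = (x ^ 2) ^ n * (x ^ 2) ^ n := by
      rw [← pow_mul, ← pow_add]
      congr 1
      ring
    rw [h6]
    nth_rewrite 1 [h4]
    rw [← mul_pow, ← mul_pow, inv_mul_cancel₀ hx0, one_pow, one_pow]
  have h7 := (hxy _ _ h5).1
  have h8 : 4 * n = 0 := by exact_mod_cast h7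
  omega

end Pool.Agent.O9
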