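import Pool.Agent.DD7719.NPos
import Pool.Agent.DD7719.Lang

/-! U1. Class data for simple ultimately positive instances. -/

set_option autoImplicit false

namespace Pool.Agent.DD7719.M

open Complex Filter Topology GS

variable {k : ℕ}

/-- the data of a class with nonnegative level function (`ClsD` without the last alternative) -/
def ClsU (k : ℕ) (l c : Fin k → ℂ) (ex : Fin k → ℕ) (M Nb : ℕ) (ε δ : ℝ) (n0 j : ℕ) : Prop :=
  ∃ (A H : Fin k → Fin k → ℤ) (D : ℤ) (s : ℕ) (w : Fin k → Fin k → ℝ)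
    (τ : Fin k → ℝ) (x : Fin k → ℝ) (i0 : Fin k), Rep l n0 A s x ∧
    BaseF k l c ex M Nb ε δ n0 j A H D s w τ ‖l i0‖ 0 ∧ l i0 ≠ 0 ∧
    (∃ z' : Fin k → ℂ, (∀ t, ‖z' t‖ = 1) ∧ (LevF l c ex A s j 0 ‖l i0‖ z').re ≠ 0) ∧
    (∀ z : Fin k → ℂ, (∀ t, ‖z t‖ = 1) → 0 ≤ (LevF l c ex A s j 0 ‖l i0‖ z).re) ∧
    (open scoped Classical in ∀ m, ∑ i, (if Above ‖l i0‖ 0 (l i) (ex i) then
            c i * ((j + n0 * m).choose (ex i) : ℂ) * l i ^ (j + n0 * m - ex i) else 0) = 0)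

/-- If `(2 E) ∣ n0` and `E` kills the torsion of a field containing the `l i` and their conjugates,
then the group generated by the `(l i / |l i|) ^ n0` has no torsion: the square of
`∏ nz (l i) ^ g i` is `∏ (nzr (l i) / conj (nzr (l i))) ^ g i` (`nzr_div_conj`), which is in `K`. -/
theorem torsion_free_of_dvd (l : Fin k → ℂ) (K : IntermediateField ℚ ℂ) (hK : ∀ i, l i ∈ K)
    (hK' : ∀ i, (starRingEnd ℂ) (l i) ∈ K) (E n0 : ℕ)
    (hE : ∀ z ∈ K, (∃ n : ℕ, 0 < n ∧ z ^ n = 1) → z ^ E = 1) (hn0 : 2 * E ∣ n0)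
    (hn0' : 0 < n0) (g : Fin k → ℤ)
    (n : ℕ) (hn : 0 < n) (h : (∏ i, (nz (l i) ^ n0) ^ g i) ^ n = 1) :
    ∏ i, (nz (l i) ^ n0) ^ g i = 1 := by
  have hQK : ∏ i, (nzr (l i) / (starRingEnd ℂ) (nzr (l i))) ^ g i ∈ K := by
    refine prod_mem fun i _ => zpow_mem (div_mem ?_ ?_) _
    · unfold nzr
      split_ifs
      · exact one_mem K
      · exact hK i
    · unfold nzr
      split_ifs
      · rw [map_one]
        exact one_mem K
      · exact hK' i
  rw [prod_nzr] at hQK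
  obtain ⟨r, rfl⟩ := hn0
  rw [prod_pow_zpow (fun i => nz (l i)) g] at h ⊢
  have hr : 0 < E * r := by
    rcases Nat.eq_zero_or_pos (E * r) with h0 | h0
    · rw [mul_assoc, h0, mul_zero] at hn0'
      exact absurd hn0' (lt_irrefl _)
    · exact h0
  have h1 := hE _ hQK ⟨E * r * n, Nat.mul_pos hr hn, by
    rw [← pow_mul, ← h, ← pow_mul]
    congr 1
    ring⟩
  rw [← pow_mul] at h1
  rw [pow_mul, h1, one_pow]

/-- the same for ratios of roots of equal modulus -/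
theorem pair_of_dvd (l : Fin k → ℂ) (K : IntermediateField ℚ ℂ) (hK : ∀ i, l i ∈ K)
    (E n0 : ℕ) (hE : ∀ z ∈ K, (∃ n : ℕ, 0 < n ∧ z ^ n = 1) → z ^ E = 1) (hn0 : E ∣ n0)
    (i i' : Fin k) (hii : ‖l i‖ = ‖l i'‖) (hne : l i ^ n0 ≠ l i' ^ n0) (n : ℕ) (hn : 0 < n) :
    l i ^ n ≠ l i' ^ n := by
  intro heq
  have hi' : l i' ≠ 0 := by
    intro h0
    rw [h0, norm_zero, norm_eq_zero] at hii
    apply hne
    rw [hii, h0]
  have h1 := hE (l i / l i') (div_mem (hK i) (hK i'))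
    ⟨n, hn, by rw [div_pow, heq, div_self (pow_ne_zero _ hi')]⟩
  apply hne
  obtain ⟨r, hr⟩ := hn0
  rw [div_pow, div_eq_one_iff_eq (pow_ne_zero _ hi')] at h1
  rw [hr, pow_mul, pow_mul, h1]

end Pool.Agent.DD7719.M

namespace Pool.Agent.UltPos

open Pool.Agent.PT Pool.Agent.AllR Pool.Agent.DD7719.M Pool.Agent.DD7719 Finset

section
variable (I : Inst) (L : ℕ) (hkL : I.k ≤ L)
    (hb : ∀ i, (I.aNum i).natAbs ≤ 2 ^ L ∧ I.aDen i ≤ 2 ^ L) (aR uR : ℕ → ℝ)
    (ha : ∀ t (h : t < I.k), aR t = (I.a ⟨t, h⟩ : ℝ)) (hu : ∀ t (h : t < I.k), uR t = (I.u ⟨t, h⟩ : ℝ))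
    (v : ℕ → ℚ) (hv : I.IsSeq v)

include hkL hb ha hu in
/-- Level functions of certificates of simple ultimately positive instances are nonnegative
(`Inst.cert_iff`, `Inst.Simple.not_criticalM`; a negative value is a certificate). -/
theorem Inst.nonneg_up (hS : I.Simple) (hU : I.UltimatelyPositive) {l c : ℕ → ℂ} {ex : ℕ → ℕ}
    (hrd : RootData I.k aR uR l c ex) {n0 j : ℕ} {A H : ℕ → ℕ → ℤ} {D : ℤ} {s : ℕ}
    {w : ℕ → ℕ → ℝ} {τ : ℕ → ℝ} {ρ : ℝ} {d : ℕ}
    (hbase : BaseN I.k l c ex (pbm L) (pbn L) (2 / ((2 ^ pq L : ℕ) : ℝ)) (1 / 2 ^ pdl L) n0 j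
      A H D s w τ ρ d) (z : Fin I.k → ℂ) (hz : ∀ t, ‖z t‖ = 1) :
    0 ≤ (LevF (fun i : Fin I.k => l i) (fun i => c i) (fun i => ex i) (fun i t => A i t) s j d ρ
      z).re := by
  classical
  by_contra hcon
  push Not at hcon
  obtain ⟨h1, h2, h3, h4, h5, h6, h7, h8, h9, h10, h11, h12, h13, h16, h17, h18⟩ := hbase
  have hz1 : ∀ t, t < I.k → ‖(ext1 1 z : ℕ → ℂ) t‖ = 1 := by
    rw [forall_fin]
    intro t
    rw [ext1_fin]
    exact hz t
  have hlev : (Lev I.k s d l c (ext1 1 z) ex A j ρ).re < 0 := by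
    rw [lev_eq_levF]
    have e1 : (fun t : Fin I.k => (ext1 1 z : ℕ → ℂ) (t : ℕ)) = z := by
      funext t
      exact ext1_fin 1 z t
    rw [e1]
    exact hcon
  have hcert : CertN I.k l c ex (pbm L) (pbn L) (2 / ((2 ^ pq L : ℕ) : ℝ)) (1 / 2 ^ pdl L) :=
    ⟨n0, j, A, H, D, s, w, τ, ext1 1 z, ext1 1 z, ρ, d, h1, h2, h3, h4, h5, h6, h7, h8, h9, h10,
      h11, h12, h13, hz1, hz1, h16, h17, h18, Or.inr (Or.inl hlev)⟩
  exact (I.cert_iff L hkL hb aR uR ha hu).mpr ⟨l, c, ex, hrd, hcert⟩ ⟨hU, hS.not_criticalM⟩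

include ha in
/-- the exponents of the root data of a simple instance are zero -/
theorem Inst.ex_zero (hS : I.Simple) {l c : ℕ → ℂ} {ex : ℕ → ℕ}
    (hrd : RootData I.k aR uR l c ex) (i : ℕ) (hi : i < I.k) : ex i = 0 := by
  by_contra hne
  have h1 := (I.simple_iff aR ha).mp hS
  exact h1 ⟨l i, fun e he => hrd.2.2.1 i hi e (by omega)⟩

include ha in
theorem Inst.l_injective (hS : I.Simple) {l c : ℕ → ℂ} {ex : ℕ → ℕ}
    (hrd : RootData I.k aR uR l c ex) : Function.Injective fun i : Fin I.k => l i := by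
  intro i i' h
  by_contra hne
  have hne' : (i : ℕ) ≠ i' := fun h => hne (Fin.ext h)
  rcases hrd.2.1 i i.2 i' i'.2 hne' with h1 | h1
  · exact h1 h
  · apply h1
    rw [I.ex_zero aR uR ha hS hrd i i.2, I.ex_zero aR uR ha hS hrd i' i'.2]

private lemma clsU_factorial : ∀ m : ℕ, (m + 1).factorial ≤ (m + 1) ^ m
  | 0 => by simp
  | m + 1 => by
    rw [Nat.factorial_succ, pow_succ, mul_comm]
    exact Nat.mul_le_mul_right _ ((clsU_factorial m).trans
      (Nat.pow_le_pow_left (Nat.le_succ _) m))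

private lemma clsU_Nb {k L e : ℕ} (hk : 0 < k) (hkL : k ≤ L) (he : e ≤ 2 * k.factorial ^ 2) :
    2 * e * (2 ^ (pdl L + 3)) ^ k ≤ 2 ^ (1 + 2 * L * L + (pdl L + 3) * L) := by
  obtain ⟨m, rfl⟩ : ∃ m, k = m + 1 := ⟨k - 1, by omega⟩
  have h1 : (m + 1).factorial ≤ 2 ^ (L * m) := by
    refine (clsU_factorial m).trans ?_
    rw [pow_mul]
    exact Nat.pow_le_pow_left (hkL.trans Nat.lt_two_pow_self.le) m
  have h2 : 2 * e ≤ 2 ^ (1 + 2 * L * L) := by
    calc 2 * e ≤ 2 * (2 * (2 ^ (L * m)) ^ 2) := by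
          gcongr
          exact he.trans (by gcongr)
      _ = 2 ^ (2 + L * m * 2) := by
          rw [← pow_mul, pow_add]
          ring
      _ ≤ 2 ^ (1 + 2 * L * L) := by
          apply Nat.pow_le_pow_right (by norm_num)
          have h3 : L * m + L ≤ L * L := by
            calc L * m + L = L * (m + 1) := by ring
              _ ≤ L * L := Nat.mul_le_mul_left _ hkL
          have h4 : 2 * L * L = 2 * (L * L) := by ring
          have h5 : L * m * 2 = 2 * (L * m) := by ring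
          omega
  have h3 : (2 ^ (pdl L + 3)) ^ (m + 1) ≤ 2 ^ ((pdl L + 3) * L) := by
    rw [pow_mul]
    exact Nat.pow_le_pow_right Nat.one_le_two_pow hkL
  rw [pow_add 2 (1 + 2 * L * L)]
  exact Nat.mul_le_mul h2 h3

include hkL hb ha hu hv in
/-- **The class data.** As `Inst.exists_cls`, with `class_data0` and `e = 2 E`, `E` from
`torsion_bound` for the field generated by the roots. The first alternative of `class_data0` (the
class vanishes) contradicts ultimate positivity; `0 ≤` is `nonneg_up`. -/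
theorem Inst.exists_clsU (hS : I.Simple) (hU : I.UltimatelyPositive) {l c : ℕ → ℂ} {ex : ℕ → ℕ}
    (hrd : RootData I.k aR uR l c ex) :
    ∃ (E n0 : ℕ), 0 < E ∧ E ≤ 2 * (Nat.factorial I.k) ^ 2 ∧
      (∀ z ∈ IntermediateField.adjoin ℚ (Set.range fun i : Fin I.k => l i),
        (∃ n : ℕ, 0 < n ∧ z ^ n = 1) → z ^ E = 1) ∧
      0 < n0 ∧ n0 ≤ 2 ^ (1 + 2 * L * L + (pdl L + 3) * L) ∧ 2 * E ∣ n0 ∧
      (∀ (g : Fin I.k → ℤ) (n : ℕ), 0 < n → (∏ i : Fin I.k, (nz (l i) ^ n0) ^ g i) ^ n = 1 →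
        ∏ i : Fin I.k, (nz (l i) ^ n0) ^ g i = 1) ∧
      (∀ i i' : Fin I.k, ‖l i‖ = ‖l i'‖ → l i ^ n0 ≠ l i' ^ n0 →
        ∀ n : ℕ, 0 < n → l i ^ n ≠ l i' ^ n) ∧
      ∀ j, I.k ≤ j → j < I.k + n0 → ClsU I.k (fun i => l i) (fun i => c i) (fun i => ex i)
        (2 ^ pmh L) (2 ^ (1 + 2 * L * L + (pdl L + 3) * L)) (2 / ((2 ^ pq L : ℕ) : ℝ))
        (1 / 2 ^ pdl L) n0 j := by
  classical
  have hex : ∀ i : Fin I.k, ex i = 0 := fun i => I.ex_zero aR uR ha hS hrd i i.2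
  have hroot := I.root_eq' aR uR ha hrd
  have h0 := ipoly_ne_zero I.k I.num I.den I.den_pos'
  obtain ⟨E, hE0, hEle, hE⟩ := torsion_bound I.k (ipoly I.k I.num I.den) h0
    (ipoly_natDegree I.k I.num I.den)
  have hmem : ∀ i : Fin I.k,
      l i ∈ IntermediateField.adjoin ℚ ((ipoly I.k I.num I.den).rootSet ℂ) := fun i =>
    IntermediateField.subset_adjoin _ _
      ((Polynomial.mem_rootSet_of_ne h0).mpr (ipoly_aeval I.k I.num I.den I.den_pos' (l i)
        (hroot i)))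
  have hmem' : ∀ i : Fin I.k,
      (starRingEnd ℂ) (l i) ∈ IntermediateField.adjoin ℚ ((ipoly I.k I.num I.den).rootSet ℂ) := by
    intro i
    apply IntermediateField.subset_adjoin
    apply (Polynomial.mem_rootSet_of_ne h0).mpr
    apply ipoly_aeval I.k I.num I.den I.den_pos'
    have h1 := congrArg (starRingEnd ℂ) (hroot i)
    rw [map_pow, map_sum] at h1
    rw [h1]
    refine Finset.sum_congr rfl fun t _ => ?_
    rw [map_mul, map_div₀, map_pow, map_intCast, map_natCast]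
  have hle : IntermediateField.adjoin ℚ (Set.range fun i : Fin I.k => l i) ≤
      IntermediateField.adjoin ℚ ((ipoly I.k I.num I.den).rootSet ℂ) := by
    rw [IntermediateField.adjoin_le_iff]
    rintro _ ⟨i, rfl⟩
    exact hmem i
  obtain ⟨n0, hn0, hn0Nb, hen0, hcls⟩ := class_data0 (k := I.k) (fun i => l i) (fun i => c i)
      (fun i => ex i) (2 ^ pr L)
      (2 ^ pq L) (2 ^ pmh L) (2 ^ (pdl L + 3)) (2 * E) (2 ^ (1 + 2 * L * L + (pdl L + 3) * L))
      I.kpos (fun i => hrd.1 i i.2) Nat.one_le_two_pow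
      (le_trans (by
        have : 2 * I.k * 2 ^ pr L ≤ 8 * I.k * 2 ^ pr L := by
          gcongr
          norm_num
        exact this) (pQ_le hkL)) (pMH_le hkL) (1 / 2 ^ pdl L) (by positivity) (pd2 hkL) (pd4 hkL)
      (pd3 hkL) (by positivity) (pd5 L) (by omega) (clsU_Nb I.kpos hkL hEle)
      (I.relBound' L hkL hb aR uR ha hrd)
      (fun n => ((v n : ℚ) : ℝ)) (I.all' aR uR ha hu v hv hrd)
  refine ⟨E, n0, hE0, hEle, fun z hz => hE z (hle hz), hn0, hn0Nb, hen0, fun g n hn h =>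
    torsion_free_of_dvd _ _ hmem hmem' E n0 hE hen0 hn0 g n hn h, fun i i' hii hne n hn =>
    pair_of_dvd (fun i : Fin I.k => l i) _ hmem E n0 hE ((dvd_mul_left E 2).trans hen0) i i' hii
      hne n hn, fun j hj hj' => ?_⟩
  obtain ⟨A, H, D, s, w, τ, x, hrep, hcase⟩ := hcls j hj hj'
  rcases hcase with hbase | ⟨i0, hbase, hi0, ⟨z', hz', hne⟩, hvan⟩
  · exfalso
    obtain ⟨N, hN⟩ := (I.up_iff hv).mp hU
    obtain ⟨hn0', _, hj, _, hs, hD, hDM, hHA, hA, hH, hδ', hw, hwε, hρ, hd, hvan⟩ := hbase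
    have hvan' := vanish_gen (fun i : Fin I.k => l i) (fun i => c i) (fun i => ex i)
      (fun i e he => hrd.closed i e he) (fun i => Above 0 0 (l i) (ex i)) j n0 hvan
    have h2 : ∑ i : Fin I.k, c i * ((j + n0 * N).choose (ex i) : ℂ) *
        l i ^ (j + n0 * N - ex i) =
        ∑ i : Fin I.k, (if Above 0 0 (l i) (ex i) then c i * ((j + n0 * N).choose (ex i) : ℂ) *
          l i ^ (j + n0 * N - ex i) else 0) := by
      apply Finset.sum_congr rfl
      intro i _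
      split_ifs with h
      · rfl
      · have h3 : l i = 0 := by
          by_contra h4
          apply h
          left
          exact norm_pos_iff.mpr h4
        rw [h3, zero_pow, mul_zero]
        have := hex i
        have := I.kpos
        omega
    rw [I.all' aR uR ha hu v hv hrd, hvan' N] at h2
    have h3 : ((v (j + n0 * N) : ℚ) : ℝ) = 0 := by exact_mod_cast h2
    have h4 : 0 < v (j + n0 * N) := hN _ (by
      have : N ≤ n0 * N := Nat.le_mul_of_pos_left _ hn0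
      omega)
    have h5 : v (j + n0 * N) = 0 := by exact_mod_cast h3
    exact h4.ne' h5
  · have hbase' : BaseF I.k (fun i => l i) (fun i => c i) (fun i => ex i) (2 ^ pmh L)
        (2 ^ (1 + 2 * L * L + (pdl L + 3) * L)) (2 / ((2 ^ pq L : ℕ) : ℝ)) (1 / 2 ^ pdl L) n0 j
        A H D s w τ ‖l i0‖ 0 := by
      have h1 := hbase
      rw [hex i0] at h1
      exact h1
    rw [hex i0] at hne hvan
    refine ⟨A, H, D, s, w, τ, x, i0, hrep, hbase', hi0, ⟨z', hz', hne⟩, fun z hz => ?_, hvan⟩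
    have h1 := I.nonneg_up L hkL hb aR uR ha hu hS hU hrd
      (hbase'.toN (two_pow_lt_pbm L) (two_pow_lt_pbn L)) z hz
    have h2 : (fun i t : Fin I.k => ext2 0 A (i : ℕ) (t : ℕ)) = A := by
      funext i t
      exact ext2_fin 0 A i t
    rw [h2] at h1
    exact h1

end

end Pool.Agent.UltPos
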