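import Pool.Agent.O9.Defs
import Pool.Agent.MX.Defs
import Pool.Agent.DD7719.CertDef
import Pool.Agent.F1.Seq
import Pool.Agent.F1.PlaneThm

/-! U4. Narrow or exceptional: the dichotomy for one residue class (theorem F1). -/

set_option autoImplicit false

namespace Pool.Agent.O9

open Filter Topology Finset UltPos Pool.Agent.DD7719.M

/-- **Narrow or exceptional.** -/
theorem class_dichotomy {k : ℕ} (l c : Fin k → ℂ) (hl : Function.Injective l) (v : ℕ → ℝ)
    (hv : ∀ n, ∑ i, c i * l i ^ n = (v n : ℂ)) (hup : ∃ N0, ∀ n, N0 ≤ n → 0 < v n)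
    (h10 : ∀ r : ℝ, 0 < r → (univ.filter fun i => ‖l i‖ = r).card ≤ 10)
    (N J : ℕ) (hN : 0 < N)
    (htf : ∀ (g : Fin k → ℤ) (n : ℕ), 0 < n → (∏ i, (nz (l i) ^ N) ^ g i) ^ n = 1 →
      ∏ i, (nz (l i) ^ N) ^ g i = 1) :
    ClassNarrow v (Set.range l) N J ∨
      ∃ N' J' : ℕ, 0 < N' ∧ ExcAt v (N * N') (J + N * J') := by
  classical
  have e : ∀ g : Fin k → ℤ, ∏ i, (nz (l i) ^ N) ^ g i = (∏ i, nz (l i) ^ g i) ^ N := by
    intro g
    rw [← Finset.prod_pow]
    refine Finset.prod_congr rfl fun i _ => ?_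
    rw [← zpow_natCast, ← zpow_natCast, ← zpow_mul, ← zpow_mul, mul_comm]
  rcases F1.narrow_or_exc F1.planeThm l c v hv
    (by obtain ⟨N0, h⟩ := hup; exact eventually_atTop.2 ⟨N0, h⟩)
    (fun r hr => by
      have hs : {z | z ∈ Set.range l ∧ ‖z‖ = r} =
          (((univ.filter fun i => ‖l i‖ = r).image l : Finset ℂ) : Set ℂ) := by
        ext z
        simp only [Set.mem_setOf_eq, Set.mem_range, coe_image, coe_filter, mem_univ, true_and,
          Set.mem_image]
        constructor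
        · rintro ⟨⟨i, rfl⟩, h⟩
          exact ⟨i, h, rfl⟩
        · rintro ⟨i, h, rfl⟩
          exact ⟨⟨i, rfl⟩, h⟩
      rw [hs, Set.ncard_coe_finset]
      exact Finset.card_image_le.trans (h10 r hr)) N hN
    (fun g hg => by
      obtain ⟨n, hn, h⟩ := hg
      rw [← e]
      refine htf g n hn ?_
      rw [e, ← pow_mul, mul_comm N n, pow_mul, h, one_pow]) J with h | h
  · exact Or.inl h
  · refine Or.inr ⟨2, 0, two_pos, ?_⟩
    rw [mul_zero, add_zero]
    exact h

end Pool.Agent.O9
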