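import Pool.Agent.DD7719.GBase

/-! Q1. Exponential sums that tend to zero. -/

set_option autoImplicit false

namespace Pool.Agent.O9

open Filter Topology Finset

/-- If `∑ C_μ μ^m → 0`, then `C_μ = 0` for `|μ| ≥ 1`. (Divide by the power of the largest modulus
`R ≥ 1` of a `μ` with `C_μ ≠ 0` and use `DD7719.M.ap_zero`.) -/
theorem expsum_tendsto (M : Finset ℂ) (C : ℂ → ℂ)
    (h : Tendsto (fun m : ℕ => ∑ μ ∈ M, C μ * μ ^ m) atTop (𝓝 0)) :
    ∀ μ ∈ M, 1 ≤ ‖μ‖ → C μ = 0 := by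
  classical
  by_contra hcon
  push Not at hcon
  obtain ⟨μ1, hμ1M, hμ1, hC1⟩ := hcon
  let S : Finset ℂ := M.filter fun μ => C μ ≠ 0
  have hS : S.Nonempty := ⟨μ1, Finset.mem_filter.2 ⟨hμ1M, hC1⟩⟩
  obtain ⟨μ0, hμ0, hmax⟩ := S.exists_max_image (fun μ => ‖μ‖) hS
  set R : ℝ := ‖μ0‖ with hR
  have hR1 : 1 ≤ R := hμ1.trans (hmax μ1 (Finset.mem_filter.2 ⟨hμ1M, hC1⟩))
  have hR0 : (0 : ℝ) < R := lt_of_lt_of_le one_pos hR1
  have hRc : (R : ℂ) ≠ 0 := by exact_mod_cast hR0.ne'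
  let T : Finset ℂ := S.filter fun μ => ‖μ‖ = R
  -- the sum over `S`
  have hsumS : ∀ m : ℕ, ∑ μ ∈ M, C μ * μ ^ m = ∑ μ ∈ S, C μ * μ ^ m := by
    intro m
    symm
    refine Finset.sum_subset (Finset.filter_subset _ _) fun μ hμ hμS => ?_
    have : C μ = 0 := by
      by_contra hne
      exact hμS (Finset.mem_filter.2 ⟨hμ, hne⟩)
    rw [this, zero_mul]
  -- divide by `R ^ m`
  have h1 : Tendsto (fun m : ℕ => ∑ μ ∈ S, C μ * (μ / R) ^ m) atTop (𝓝 0) := by
    rw [tendsto_zero_iff_norm_tendsto_zero] at h ⊢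
    refine squeeze_zero (fun _ => norm_nonneg _) (fun m => ?_) h
    rw [hsumS m]
    have e : ∑ μ ∈ S, C μ * (μ / R) ^ m = (∑ μ ∈ S, C μ * μ ^ m) / (R : ℂ) ^ m := by
      rw [Finset.sum_div]
      refine Finset.sum_congr rfl fun μ _ => ?_
      rw [div_pow, mul_div_assoc]
    rw [e, norm_div, norm_pow, Complex.norm_real, Real.norm_of_nonneg hR0.le]
    exact div_le_self (norm_nonneg _) (one_le_pow₀ hR1)
  -- the small terms
  have h2 : Tendsto (fun m : ℕ => ∑ μ ∈ S.filter (fun μ => ¬ ‖μ‖ = R), C μ * (μ / R) ^ m) atTop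
      (𝓝 0) := by
    have : Tendsto (fun m : ℕ => ∑ μ ∈ S.filter (fun μ => ¬ ‖μ‖ = R), C μ * (μ / R) ^ m) atTop
        (𝓝 (∑ _μ ∈ S.filter (fun μ => ¬ ‖μ‖ = R), 0)) := by
      refine tendsto_finset_sum _ fun μ hμ => ?_
      have hμ' := Finset.mem_filter.1 hμ
      have hlt : ‖μ / R‖ < 1 := by
        rw [norm_div, Complex.norm_real, Real.norm_of_nonneg hR0.le, div_lt_one hR0]
        exact lt_of_le_of_ne (hmax μ hμ'.1) hμ'.2
      have := (tendsto_pow_atTop_nhds_zero_of_norm_lt_one hlt).const_mul (C μ)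
      rwa [mul_zero] at this
    rwa [Finset.sum_const_zero] at this
  have h3 : Tendsto (fun m : ℕ => ∑ μ ∈ T, C μ * (μ / R) ^ m) atTop (𝓝 0) := by
    have := h1.sub h2
    rw [sub_zero] at this
    refine this.congr fun m => ?_
    rw [← Finset.sum_filter_add_sum_filter_not S (fun μ => ‖μ‖ = R), add_sub_cancel_right]
  have h4 : Tendsto (fun m : ℕ => ∑ i : T, C i * ((i : ℂ) / R) ^ m) atTop (𝓝 0) := by
    refine h3.congr fun m => ?_
    exact (Finset.sum_coe_sort T (fun μ => C μ * (μ / R) ^ m)).symm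
  have h5 := DD7719.M.ap_zero (fun i : T => (i : ℂ) / R) (fun i : T => C i)
    (fun i => by
      have := (Finset.mem_filter.1 i.2).2
      rw [norm_div, Complex.norm_real, Real.norm_of_nonneg hR0.le, this, div_self hR0.ne'])
    (fun i j hij => by
      have : (i : ℂ) / R = (j : ℂ) / R := hij
      rw [div_left_inj' hRc] at this
      exact Subtype.ext this)
    h4 ⟨μ0, Finset.mem_filter.2 ⟨hμ0, rfl⟩⟩
  exact (Finset.mem_filter.1 hμ0).2 h5

end Pool.Agent.O9
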