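import Pool.Agent.O9.Thresh
import Pool.Agent.DD7719.NLang

/-! U6. Positivity of simple recurrences of order at most nine is in `∀ℝ`. -/

set_option autoImplicit false

namespace Pool.Agent.UltPos

open Pool.Agent.PT Pool.Agent.AllR Pool.Agent.DD7719.M Pool.Agent.DD7719 Finset

/-- **Positivity of simple recurrences of order at most nine is in `∀ℝ`.** -/
theorem inForallR_nine :
    InForallR {w : List ISym | ∃ I : Inst, w = I.enc ∧ I.Positive ∧ I.Simple ∧ I.k ≤ 9} := by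
  obtain ⟨C, hC⟩ := Pool.Agent.BakerGap.gap
  obtain ⟨C9, hC9⟩ := O9.exists_NZ
  obtain ⟨kk, sg, nb, db, hkk, hsg, hnb, hdb, hI⟩ := exists_parser
  have h2 : RF (Γ := ISym) (fun _ _ _ => (2 : ℝ)) :=
    (RF.nat (UF.const 2)).congr fun _ _ _ => by norm_num
  have hε : RF (Γ := ISym) (fun x _ _ => (2 : ℝ) / ((2 ^ pq x.length : ℕ) : ℝ)) :=
    (h2.div (h2.pow (uf_pq UF.len))).congr fun x e α => by push_cast; rfl
  have hδ : RF (Γ := ISym) (fun x _ _ => (1 : ℝ) / 2 ^ pdl x.length) :=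
    RF.one.div (h2.pow (uf_pdl UF.len))
  have hfa : ∀ (I : Inst) (t : ℕ) (ht : t < I.k), fieldR sg nb db 0 I.enc t = (I.a ⟨t, ht⟩ : ℝ) := by
    intro I t ht
    obtain ⟨e1, e2, e3, e4, e5, e6, e7⟩ := hI I
    rw [Inst.a, fieldR]
    push_cast
    have h3 := congrArg (fun z : ℤ => (z : ℝ)) (e3 ⟨t, ht⟩)
    have h4 := congrArg (fun z : ℤ => (z : ℝ)) (e4 ⟨t, ht⟩)
    simp only at h3 h4
    push_cast at h3 h4
    rw [h3, h4]
  have hfu : ∀ (I : Inst) (t : ℕ) (ht : t < I.k), fieldR sg nb db 1 I.enc t = (I.u ⟨t, ht⟩ : ℝ) := by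
    intro I t ht
    obtain ⟨e1, e2, e3, e4, e5, e6, e7⟩ := hI I
    rw [Inst.u, fieldR]
    push_cast
    have h3 := congrArg (fun z : ℤ => (z : ℝ)) (e5 ⟨t, ht⟩)
    have h4 := congrArg (fun z : ℤ => (z : ℝ)) (e6 ⟨t, ht⟩)
    simp only at h3 h4
    push_cast at h3 h4
    rw [h3, h4]
  have hcert := re_cert kk (fun x => pbm x.length) (fun x => pbn x.length)
    (fieldR sg nb db 0) (fieldR sg nb db 1) _ _ hkk (uf_pbm UF.len) (uf_pbn UF.len)
    (rf_fieldR 0 hsg hnb hdb) (rf_fieldR 1 hsg hnb hdb) hε hδ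
  have hdbl := re_double kk (fieldR sg nb db 0) hkk (rf_fieldR 0 hsg hnb hdb)
  -- the values along the fibres
  have hRR := re_certQ (fun x α => QR (kk x) α) kk
    (fun x => pbm x.length) (fun x => pbn x.length)
    (fieldR sg nb db 0) (fieldR sg nb db 1) _ _ hkk (uf_pbm UF.len) (uf_pbn UF.len)
    (rf_fieldR 0 hsg hnb hdb) (rf_fieldR 1 hsg hnb hdb) hε hδ (fun x α => qR_congr (kk x) α)
    (re_QR kk (fun x => pbm x.length) (fun x => pbn x.length) hkk (uf_pbm UF.len)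
      (uf_pbn UF.len))
  obtain ⟨P, hP, hB⟩ := RElim.Par.exists_bound_param
    (R := fun x t y p0 p1 p2 p3 => ∃ (l c : ℕ → ℂ) (ex : ℕ → ℕ),
      RootData (kk x) (fieldR sg nb db 0 x)
      (fieldR sg nb db 1 x) l c ex ∧ CertQN (kk x) l c ex (pbm x.length) (pbn x.length)
        (2 / ((2 ^ pq x.length : ℕ) : ℝ)) (1 / 2 ^ pdl x.length)
        (QR (kk x) (v6 t y p0 p1 p2 p3))) hRR (fun x => pbn x.length + x.length)
        ((uf_pbn UF.len).add UF.len)
  -- the reciprocals of the minima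
  have hmin := re_certP PR (fun ht hρ hf hf' hd => re_PR ht hρ hf hf' hd) kk
    (fun x => pbm x.length) (fun x => pbn x.length)
    (fieldR sg nb db 0) (fieldR sg nb db 1) _ _ hkk (uf_pbm UF.len) (uf_pbn UF.len)
    (rf_fieldR 0 hsg hnb hdb) (rf_fieldR 1 hsg hnb hdb) hε hδ (fun _ α => α 0)
    (RF.var (UF.const 0))
  obtain ⟨P0, hP0, hB0⟩ := RElim.exists_bound
    (R := fun x t => ∃ (l c : ℕ → ℂ) (ex : ℕ → ℕ), RootData (kk x) (fieldR sg nb db 0 x)
      (fieldR sg nb db 1 x) l c ex ∧ CertBN (kk x) l c ex (pbm x.length) (pbn x.length)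
        (2 / ((2 ^ pq x.length : ℕ) : ℝ)) (1 / 2 ^ pdl x.length) (PR t)) hmin
  -- the coefficients
  have hcoef := re_coef kk (fieldR sg nb db 0) (fieldR sg nb db 1) hkk
    (rf_fieldR 0 hsg hnb hdb) (rf_fieldR 1 hsg hnb hdb)
  obtain ⟨P2, hP2, hB2⟩ := RElim.exists_bound
    (R := fun x t => ∃ (l c : ℕ → ℂ) (ex : ℕ → ℕ), RootData (kk x) (fieldR sg nb db 0 x)
      (fieldR sg nb db 1 x) l c ex ∧ t ≤ ∑ i ∈ Finset.range (kk x), ‖c i‖) hcoef
  -- small indices
  have hsmall := re_small kk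
    (fun x => pth x.length (P0 x) (P2 x) + pthN C x.length (P x) (P2 x) + (x.length + 2) ^ C9)
    (fieldR sg nb db 0)
    (fieldR sg nb db 1) hkk (((uf_pth UF.len hP0 hP2).add (uf_pthN C UF.len hP hP2)).add
      ((UF.len.add (UF.const 2)).pow C9))
    (rf_fieldR 0 hsg hnb hdb) (rf_fieldR 1 hsg hnb hdb)
  have hlt : RE (Γ := ISym) (fun x _ _ => 9 < kk x) := RE.up (UP.lt (UF.const 9) hkk)
  have hsimp : ∀ I : Inst, I.Simple ↔ ¬ DoubleRoot (kk I.enc) (fieldR sg nb db 0 I.enc) := by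
    intro I
    rw [(hI I).1]
    exact I.simple_iff _ (hfa I)
  have hkey : ∀ I : Inst, (¬ (I.UltimatelyPositive ∧ ¬ I.CriticalM)) ↔
      ∃ (l c : ℕ → ℂ) (ex : ℕ → ℕ),
      RootData (kk I.enc) (fieldR sg nb db 0 I.enc) (fieldR sg nb db 1 I.enc) l c ex ∧
      CertN (kk I.enc) l c ex (pbm I.enc.length) (pbn I.enc.length)
        (2 / ((2 ^ pq I.enc.length : ℕ) : ℝ)) (1 / 2 ^ pdl I.enc.length) := by
    intro I
    obtain ⟨e1, e2, e3, e4, e5, e6, e7⟩ := hI I
    rw [e1]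
    exact I.cert_iff I.enc.length e2 (fun i => ⟨(e7 i).1.le, (e7 i).2.1.le⟩) _ _ (hfa I) (hfu I)
  refine RE.inForallR ((((RE.up up_valid.not).or hsmall).or (hdbl.or hlt)).or hcert) _
    fun x => ?_
  constructor
  · rintro ⟨I, rfl, hpos, hS, hk9⟩ ⟨α, ((h4 | h4) | h4 | h4) | h4⟩
    · exact h4 ⟨I, rfl⟩
    · obtain ⟨v, hv, -⟩ := I.exists_unique_seq
      obtain ⟨l, c, ex, hrd, n, hn, hle⟩ := h4
      have hIk := (hI I).1
      rw [hIk] at hrd hle
      have h5 := I.all' _ _ (hfa I) (hfu I) v hv hrd n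
      rw [← Finset.sum_range (fun i => c i * (n.choose (ex i) : ℂ) * l i ^ (n - ex i))] at h5
      rw [termN, h5, Complex.ofReal_re] at hle
      have h6 : 0 < ((v n : ℚ) : ℝ) := by exact_mod_cast hpos v hv n
      linarith
    · exact (hsimp I).mp hS h4
    · rw [(hI I).1] at h4
      omega
    · refine (hkey I).mpr h4 ⟨fun v hv => ⟨0, fun n _ => hpos v hv n⟩, hS.not_criticalM⟩
  · intro h
    have h1 : ∃ I : Inst, x = I.enc := by
      by_contra hcon
      exact h ⟨fun _ => 0, Or.inl (Or.inl (Or.inl hcon))⟩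
    obtain ⟨I, rfl⟩ := h1
    obtain ⟨e1, e2, e3, e4, e5, e6, e7⟩ := hI I
    obtain ⟨v, hv, hvu⟩ := I.exists_unique_seq
    have hbd : ∀ i, (I.aNum i).natAbs ≤ 2 ^ I.enc.length ∧ I.aDen i ≤ 2 ^ I.enc.length :=
      fun i => ⟨(e7 i).1.le, (e7 i).2.1.le⟩
    have hbu : ∀ i, (I.uNum i).natAbs ≤ 2 ^ I.enc.length ∧ I.uDen i ≤ 2 ^ I.enc.length :=
      fun i => ⟨(e7 i).2.2.1.le, (e7 i).2.2.2.le⟩
    have hU : I.UltimatelyPositive ∧ ¬ I.CriticalM := by
      by_contra hcon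
      exact h ⟨fun _ => 0, Or.inr ((hkey I).mp hcon)⟩
    have hS : I.Simple := by
      by_contra hcon
      rw [hsimp I, not_not] at hcon
      exact h ⟨fun _ => 0, Or.inl (Or.inr (Or.inl hcon))⟩
    have hk9 : I.k ≤ 9 := by
      by_contra hcon
      refine h ⟨fun _ => 0, Or.inl (Or.inr (Or.inr ?_))⟩
      rw [e1]
      omega
    refine ⟨I, rfl, ?_, hS, hk9⟩
    have hthr := I.pos_of_nine I.enc.length e2 hbd hbu _ _ (hfa I) (hfu I) v hv C C9 hC hC9
      (P I.enc) (P0 I.enc) (P2 I.enc) hS hU.1 hk9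
      (by
        intro p0 p1 p2 p3 h0 h1 h2 h3
        have h4 := hB I.enc p0 p1 p2 p3 h0 h1 h2 h3
        simp only [e1] at h4
        exact h4)
      (by
        intro hT t ht
        by_contra hcon
        push Not at hcon
        rw [← e1] at ht
        obtain ⟨X, hX⟩ := I.bounded_PR I.enc.length e2 hbd _ _ (hfa I) (hfu I) v hv hT
        obtain ⟨t', ht', h5⟩ := hB0 I.enc ⟨t, hcon, ht⟩ X
        simp only [e1] at h5
        exact absurd (hX t' h5) (not_le.mpr ht'))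
      (by
        intro t ht
        by_contra hcon
        push Not at hcon
        rw [← e1] at ht
        obtain ⟨X, hX⟩ := rootData_bounded I.k (fieldR sg nb db 0 I.enc) (fieldR sg nb db 1 I.enc)
        obtain ⟨t', ht', l, c, ex, hrd, h5⟩ := hB2 I.enc ⟨t, hcon, ht⟩ X
        simp only [e1] at h5 hrd
        exact absurd (h5.trans (hX l c ex hrd)) (not_le.mpr ht'))
    intro w hw n
    rw [hvu w hw]
    by_contra hcon
    push Not at hcon
    rcases lt_or_ge n (2 ^ (pth I.enc.length (P0 I.enc) (P2 I.enc) +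
      pthN C I.enc.length (P I.enc) (P2 I.enc) + (I.enc.length + 2) ^ C9)) with h5 | h5
    · apply h
      refine ⟨fun _ => 0, Or.inl (Or.inl (Or.inr ?_))⟩
      obtain ⟨l, c, ex, hrd⟩ := I.exists_rootData' _ _ (hfa I) (hfu I)
      refine ⟨l, c, ex, ?_, n, h5, ?_⟩
      · rw [e1]
        exact hrd
      · have h6 := I.all' _ _ (hfa I) (hfu I) v hv hrd n
        rw [← Finset.sum_range (fun i => c i * (n.choose (ex i) : ℂ) * l i ^ (n - ex i))] at h6
        rw [e1, termN, h6, Complex.ofReal_re]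
        exact_mod_cast hcon
    · exact absurd (hthr n h5) (not_lt.mpr hcon)

end Pool.Agent.UltPos
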