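import Pool.Agent.O9.ClsU

/-! The lower bound for the level functions of narrow classes of simple ultimately positive
instances (as `MX/Pos2.lean`). -/

set_option autoImplicit false
set_option linter.unusedSectionVars false

namespace Pool.Agent.UltPos

open Pool.Agent.PT Pool.Agent.AllR Pool.Agent.DD7719.M Pool.Agent.DD7719 Finset

section
variable (I : Inst) (L : ℕ) (hkL : I.k ≤ L)
    (hb : ∀ i, (I.aNum i).natAbs ≤ 2 ^ L ∧ I.aDen i ≤ 2 ^ L) (aR uR : ℕ → ℝ)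
    (ha : ∀ t (h : t < I.k), aR t = (I.a ⟨t, h⟩ : ℝ)) (hu : ∀ t (h : t < I.k), uR t = (I.u ⟨t, h⟩ : ℝ))
    (v : ℕ → ℚ) (hv : I.IsSeq v)

include hkL hb ha hu hv in
/-- **The lower bound for the level function along the sequence.** -/
theorem Inst.level_lowerU (C : ℕ) (hC : GapC C) (P : ℕ) (hS : I.Simple)
    (hU : I.UltimatelyPositive)
    {l c : ℕ → ℂ} {ex : ℕ → ℕ} (hrd : RootData I.k aR uR l c ex) (hsort : Sorted I.k l)
    (n0 j : ℕ) (hn0 : 0 < n0)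
    (A H : Fin I.k → Fin I.k → ℤ) (D : ℤ) (s : ℕ) (w : Fin I.k → Fin I.k → ℝ)
    (τ : Fin I.k → ℝ) (x : Fin I.k → ℝ) (i0 : Fin I.k)
    (hrep : Rep (fun i : Fin I.k => l i) n0 A s x)
    (hbase : BaseF I.k (fun i => l i) (fun i => c i) (fun i => ex i) (2 ^ pmh L)
      (2 ^ (1 + 2 * L * L + (pdl L + 3) * L)) (2 / ((2 ^ pq L : ℕ) : ℝ)) (1 / 2 ^ pdl L) n0 j
      A H D s w τ ‖l i0‖ 0) (hi0 : l i0 ≠ 0)
    (z' : Fin I.k → ℂ) (hz' : ∀ t, ‖z' t‖ = 1)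
    (hne : (LevF (fun i : Fin I.k => l i) (fun i => c i) (fun i => ex i) A s j 0 ‖l i0‖ z').re ≠ 0)
    (hF : ∀ z : Fin I.k → ℂ, (∀ t, ‖z t‖ = 1) →
      0 ≤ (LevF (fun i : Fin I.k => l i) (fun i => c i) (fun i => ex i) A s j 0 ‖l i0‖ z).re)
    (hvan : open scoped Classical in ∀ m, ∑ i : Fin I.k, (if Above ‖l i0‖ 0 (l i) (ex i) then
            c i * ((j + n0 * m).choose (ex i) : ℂ) * l i ^ (j + n0 * m - ex i) else 0) = 0)
    (i i' : Fin I.k) (hii : ‖l i‖ = ‖l i'‖) (hpne : l i ^ n0 ≠ l i' ^ n0)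
    (hnt : ∀ n : ℕ, 0 < n → l i ^ n ≠ l i' ^ n)
    (hfin : ((fun z : Fin I.k → ℂ => (l i / l i') ^ j * (Wt A s z i / Wt A s z i')) ''
        {z | (∀ t, ‖z t‖ = 1) ∧ (LevF (fun i : Fin I.k => l i) (fun i => c i) (fun i => ex i) A s j
          0 ‖l i0‖ z).re = 0}).Finite)
    (hP : ElimP P (fun t y => I.RR L aR uR (v6 t y (i : ℕ) (i' : ℕ) n0 j))) (m : ℕ)
    (hm : (2 + pgd L + 2 ^ (P + 2) + 2 ^ (pg L + 1)) ^ C ≤ n0 * m) :
    Real.exp (-((n0 * m : ℕ) : ℝ) / ((2 ^ (pg L + 1) : ℕ) : ℝ)) / 2 ^ 2 ^ P / 2 ^ 2 ^ P ≤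
      (LevF (fun i : Fin I.k => l i) (fun i => c i) (fun i => ex i) A s j 0 ‖l i0‖ (orb x m)).re := by
  classical
  set lF : Fin I.k → ℂ := fun i => l i with hlF
  set cF : Fin I.k → ℂ := fun i => c i with hcF
  set eF : Fin I.k → ℕ := fun i => ex i with heF
  have hρ : 0 < ‖l i0‖ := norm_pos_iff.mpr hi0
  have hi' : l i' ≠ 0 := by
    intro h0
    rw [h0, norm_zero, norm_eq_zero] at hii
    apply hpne
    rw [hii, h0]
  have hγ : ‖l i / l i'‖ = 1 := unit_of_ratio _ _ hii hi'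
  have hγnt : ∀ n : ℕ, 0 < n → (l i / l i') ^ n ≠ 1 := by
    intro n hn h1
    rw [div_pow, div_eq_one_iff_eq (pow_ne_zero _ hi')] at h1
    exact hnt n hn h1
  have hexj : ∀ i, eF i ≤ j := fun i => ((hrd.1 i i.2).le.trans hbase.2.2.1)
  have hJ : j = j % n0 + n0 * (j / n0) := (Nat.mod_add_div j n0).symm
  -- finitely many contact values
  have hcf : (contact (fun n => ((v n : ℚ) : ℝ)) n0 (j % n0) (‖l i0‖ ^ n0) (l i / l i')).Finite :=
    hfin.subset (contact_subset lF cF eF n0 j hn0 hexj _ (I.all' aR uR ha hu v hv hrd) ‖l i0‖ hρ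
      hvan A s x hrep i i' hii hi' (j % n0) (j / n0) hJ)
  obtain ⟨B, hB⟩ := cls_bound lF cF eF n0 j hn0 hexj _ (I.all' aR uR ha hu v hv hrd) ‖l i0‖ hρ
    hvan (j % n0) (j / n0) hJ
  set Y : Set ℝ := (fun ζ : ℂ => (ζ / (l i / l i') ^ j).re) ''
    contact (fun n => ((v n : ℚ) : ℝ)) n0 (j % n0) (‖l i0‖ ^ n0) (l i / l i') with hY
  have hYf : Y.Finite := hcf.image _
  obtain ⟨q, hq0, hqd, hqc, hq⟩ := hP
  -- the specific certificate
  have hRR : ∀ (z : Fin I.k → ℂ), (∀ t, ‖z t‖ = 1) → ∀ t : ℝ,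
      t * (LevF lF cF eF A s j 0 ‖l i0‖ z).re ≤ 1 →
      I.RR L aR uR (v6 t (Wt A s z i / Wt A s z i').re (i : ℕ) (i' : ℕ) n0 j) := by
    intro z hz t ht
    refine ⟨l, c, ex, hrd, n0, j, ext2 0 A, ext2 0 H, D, s, ext2 0 w, ext1 0 τ, ext1 1 z,
      ext1 1 z', fun _ _ => 1, fun _ _ => 1, ‖l i0‖, 0, hbase.toN (two_pow_lt_pbm L)
      (two_pow_lt_pbn L), ?_, ?_, ?_⟩
    · rw [forall_fin]
      intro t
      rw [ext1_fin]
      exact hz t
    · rw [forall_fin]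
      intro t
      rw [ext1_fin]
      exact hz' t
    · unfold QR
      rw [levF_ext l c ex A s j 0 ‖l i0‖ z (ext1 1 z) (ext1_fin 1 z),
        levF_ext l c ex A s j 0 ‖l i0‖ z' (ext1 1 z') (ext1_fin 1 z')]
      refine ⟨hρ, rfl, hne, hsort, ⟨rfl, rfl⟩, ht, i, i.2, i', i'.2, ⟨rfl, rfl⟩, ?_⟩
      rw [wtN_ext A s z (ext1 1 z) (ext1_fin 1 z) i, wtN_ext A s z (ext1 1 z) (ext1_fin 1 z) i']
      rfl
  -- boundedness along the good fibres
  have hbdd : ∀ y : ℝ, y ∉ Y → ∃ X : ℝ, ∀ t, I.RR L aR uR (v6 t y (i : ℕ) (i' : ℕ) n0 j) →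
      t ≤ X := by
    intro y hy
    obtain ⟨X, hX⟩ := ybound (k := I.k) (fun n => ((v n : ℚ) : ℝ)) (2 ^ pr L) (2 ^ pbm L)
      (2 ^ pbn L) (2 / ((2 ^ pq L : ℕ) : ℝ)) (1 / 2 ^ pdl L) n0 hn0 (‖l i0‖ ^ n0) (by positivity)
      B n0 j hB (l i / l i') hγnt hcf y (fun ζ hζ he => hy ⟨ζ, hζ, he⟩)
    refine ⟨X, ?_⟩
    rintro t ⟨l1, c1, ex1, hrd1, n1, j1, A1, H1, D1, s1, w1, τ1, z1, z1', Z1, Z2, ρ1, d1, hb1, hz1,
      hz1', hQ⟩
    obtain ⟨g1, g2, g3, g4, ⟨g5, g6⟩, g7, a, haK, a', ha'K, ⟨g8, g9⟩, g10⟩ := hQ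
    have e5 : n1 = n0 := by
      have : (n1 : ℝ) = (n0 : ℝ) := g5
      exact_mod_cast this
    have e6 : j1 = j := by
      have : (j1 : ℝ) = (j : ℝ) := g6
      exact_mod_cast this
    have e8 : a = i := by
      have : (a : ℝ) = ((i : ℕ) : ℝ) := g8
      exact_mod_cast this
    have e9 : a' = i' := by
      have : (a' : ℝ) = ((i' : ℕ) : ℝ) := g9
      exact_mod_cast this
    subst e5 e6 e8 e9
    have hl1 : ∀ b, b < I.k → l1 b = l b := fun b hbk => sorted_unique hrd1 g4 hrd hsort b hbk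
    subst g2
    have hnn := fun z hz => I.nonneg_up L hkL hb aR uR ha hu hS hU hrd1 hb1 z hz
    rw [lev_eq_levF] at g3 g7
    have g10' := g10
    rw [wtN_eq I.k s1 A1 z1 i, wtN_eq I.k s1 A1 z1 i'] at g10'
    exact hX t (fun i => l1 i) (fun i => c1 i) (fun i => ex1 i)
      (I.goodD L hkL hb aR uR ha hu v hv hrd1) (fun i t => A1 i t) (fun i t => H1 i t) D1 s1
      (fun i t => w1 i t) (fun i => τ1 i) ρ1 0 (fun t => z1 t) (fun t => z1' t) hb1.toF g1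
      (fun t => hz1 t t.2) (fun t => hz1' t t.2) g3 hnn i i' (by rw [hl1 i i.2, hl1 i' i'.2])
      (by rw [hl1 i i.2, hl1 i' i'.2]; exact hii) (by rw [hl1 i' i'.2]; exact hi') g10' g7
  -- the inequality on the good fibres
  have hineq : ∀ z : Fin I.k → ℂ, (∀ t, ‖z t‖ = 1) → (Wt A s z i / Wt A s z i').re ∉ Y →
      |Polynomial.aeval (Wt A s z i / Wt A s z i').re q| ≤
        2 ^ 2 ^ P * (LevF lF cF eF A s j 0 ‖l i0‖ z).re := by
    intro z hz hy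
    have hbd := hbdd _ hy
    have hyle : |(Wt A s z i / Wt A s z i').re| ≤ 2 := by
      refine (Complex.abs_re_le_norm _).trans ?_
      rw [norm_div, norm_Wt A s z hz, norm_Wt A s z hz]
      norm_num
    have hpos : 0 < (LevF lF cF eF A s j 0 ‖l i0‖ z).re := by
      refine lt_of_le_of_ne (hF z hz) (fun h0 => ?_)
      obtain ⟨X, hX⟩ := hbd
      have := hX (X + 1) (hRR z hz (X + 1) (by rw [← h0]; simp))
      linarith
    have h1 := hq _ hyle hbd (1 / (LevF lF cF eF A s j 0 ‖l i0‖ z).re)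
      (hRR z hz _ (by rw [one_div, inv_mul_cancel₀ hpos.ne']))
    rw [mul_one_div, div_le_iff₀ hpos] at h1
    exact h1
  have hall := fibre_dense lF cF eF n0 j 0 ‖l i0‖ A s x hrep i i' hii hpne
    (fun y => |Polynomial.aeval y q|) (by fun_prop) (2 ^ 2 ^ P) Y hYf hineq (orb x m)
    (norm_orb x m)
  rw [hrep.chi_orb m i i' hii hi'] at hall
  obtain ⟨g, hg0, hg, hgd, hgc⟩ := exists_ratio_poly I.k I.num I.den L hkL I.den_pos'
    (I.num_le' L hb) (I.den_le' L hb) (l i) (l i') (I.root_eq' aR uR ha hrd i)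
    (I.root_eq' aR uR ha hrd i') hi'
  have hlow := trig_lower C hC P (pgd L) (2 ^ (pg L + 1)) (n0 * m) q hq0 hqd hqc (l i / l i') hγ
    hγnt g hg0 hg hgd hgc (by positivity) hm
  rw [div_le_iff₀ (by positivity)]
  exact hlow.trans (hall.trans_eq (mul_comm _ _))

end

end Pool.Agent.UltPos
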