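import Pool.Agent.O9.Nonzero

/-! The constant of `nonzero_of_exc`. -/

set_option autoImplicit false

namespace Pool.Agent.O9

open Filter Topology Finset UltPos Pool.Agent.PGap Pool.Agent.DD7719 Pool.Agent.DD7719.M

/-- the conclusion of `nonzero_of_exc` with the constant `C` -/
def NZ (C : ℕ) : Prop := ∀ (k L : ℕ) (num numu : ℕ → ℤ) (den denu : ℕ → ℕ)
    (a u : ℕ → ℝ) (l c : ℕ → ℂ) (ex : ℕ → ℕ) (v : ℕ → ℝ) (E N J n : ℕ),
    k ≤ L → k ≤ 9 → (∀ t, t < k → 0 < den t) → (∀ t, t < k → 0 < denu t) →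
    (∀ t, t < k → (num t).natAbs ≤ 2 ^ L) → (∀ t, t < k → den t ≤ 2 ^ L) →
    (∀ t, t < k → (numu t).natAbs ≤ 2 ^ L) → (∀ t, t < k → denu t ≤ 2 ^ L) →
    (∀ t, t < k → a t = (num t : ℝ) / (den t : ℝ)) →
    (∀ t, t < k → u t = (numu t : ℝ) / (denu t : ℝ)) → RootData k a u l c ex →
    (∀ i, i < k → ex i = 0) → (∀ n, ∑ i : Fin k, c i * l i ^ n = (v n : ℂ)) → 0 < E →
    E ≤ 2 * (Nat.factorial 9) ^ 2 →
    (∀ z ∈ IntermediateField.adjoin ℚ (Set.range fun i : Fin k => l i),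
      (∃ n : ℕ, 0 < n ∧ z ^ n = 1) → z ^ E = 1) →
    0 < N → ExcAt v N J → 2 ^ ((L + 2) ^ C) ≤ n → n ≡ J [MOD E] → v n ≠ 0

theorem exists_NZ : ∃ C, NZ C := nonzero_of_exc

end Pool.Agent.O9
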