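import Pool.Agent.PGap.NoZero
import Pool.Agent.MX.CoefB
import Pool.Agent.MX.CoefR
import Pool.Agent.MX.Fld

/-! Q4. Sizes of the roots and coefficients in the field generated by the roots. -/

set_option autoImplicit false

namespace Pool.Agent.PGap

variable {K : Type} [Field K] [NumberField K]

theorem Sz.mul {A h A' h' : ℕ} {z z' : K} (hz : Sz A h z) (hz' : Sz A' h' z') :
    Sz (A * A') (h + h') (z * z') := by
  refine ⟨?_, fun τ => ?_⟩
  · have e : (((A * A' : ℕ) : K)) * (z * z') = ((A : K) * z) * ((A' : K) * z') := by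
      push_cast
      ring
    rw [e]
    exact hz.1.mul hz'.1
  · rw [map_mul, norm_mul, pow_add]
    exact mul_le_mul (hz.2 τ) (hz'.2 τ) (norm_nonneg _) (by positivity)

theorem Sz.pow {A h : ℕ} {z : K} (hz : Sz A h z) (n : ℕ) : Sz (A ^ n) (h * n) (z ^ n) := by
  refine ⟨?_, fun τ => ?_⟩
  · have e : (((A ^ n : ℕ) : K)) * z ^ n = ((A : K) * z) ^ n := by
      push_cast
      rw [mul_pow]
    rw [e]
    exact hz.1.pow n
  · rw [map_pow, norm_pow, pow_mul]
    exact pow_le_pow_left₀ (norm_nonneg _) (hz.2 τ) n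

theorem Sz.mono {A h h' : ℕ} {z : K} (hz : Sz A h z) (m : ℕ) (hh : h ≤ h') :
    Sz (A * m) h' z := by
  refine ⟨?_, fun τ => ?_⟩
  · have e : (((A * m : ℕ) : K)) * z = (algebraMap ℤ K (m : ℤ)) * ((A : K) * z) := by
      push_cast
      ring
    rw [e]
    exact isIntegral_algebraMap.mul hz.1
  · exact (hz.2 τ).trans (pow_le_pow_right₀ (by norm_num) hh)

end Pool.Agent.PGap

namespace Pool.Agent.O9

open Filter Topology Finset Pool.Agent.PGap Pool.Agent.DD7719 Pool.Agent.DD7719.M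

section
variable (k L : ℕ) (hkL : k ≤ L) (num numu : ℕ → ℤ) (den denu : ℕ → ℕ)
    (hden0 : ∀ t, t < k → 0 < den t) (hdenu0 : ∀ t, t < k → 0 < denu t)
    (hnum : ∀ t, t < k → (num t).natAbs ≤ 2 ^ L) (hden : ∀ t, t < k → den t ≤ 2 ^ L)
    (hnumu : ∀ t, t < k → (numu t).natAbs ≤ 2 ^ L) (hdenu : ∀ t, t < k → denu t ≤ 2 ^ L)
    (a u : ℕ → ℝ) (ha : ∀ t, t < k → a t = (num t : ℝ) / (den t : ℝ))
    (hu : ∀ t, t < k → u t = (numu t : ℝ) / (denu t : ℝ))
    (l c : ℕ → ℂ) (ex : ℕ → ℕ) (hrd : RootData k a u l c ex)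

/-- the field generated by the roots -/
noncomputable abbrev RF (k : ℕ) (l : ℕ → ℂ) : IntermediateField ℚ ℂ :=
  IntermediateField.adjoin ℚ (Set.range fun i : Fin k => l i)

omit hden0 hrd in
include ha in
private theorem size_aq (t : ℕ) (ht : t < k) : a t = (((num t : ℚ) / (den t : ℚ) : ℚ) : ℝ) := by
  rw [ha t ht]
  push_cast
  rfl

include ha hrd in
private theorem size_aeval (i : ℕ) (hi : i < k) :
    Polynomial.aeval (l i) (cp k fun t => ((num t : ℚ) / (den t : ℚ) : ℚ)) = 0 := by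
  have h1 := hrd.root i hi
  rw [cp, map_sub, map_sum, map_pow, Polynomial.aeval_X, sub_eq_zero, h1]
  refine Finset.sum_congr rfl fun t ht => ?_
  rw [map_mul, Polynomial.aeval_C, map_pow, Polynomial.aeval_X,
    size_aq k num den a ha t (Finset.mem_range.mp ht)]
  simp

include hden0 ha hrd in
theorem rf_numberField : NumberField (RF k l) ∧ Module.finrank ℚ (RF k l) ≤ k ^ k := by
  classical
  set S : Finset ℂ := Finset.univ.image fun i : Fin k => l i with hS
  have hSc : (S : Set ℂ) = Set.range fun i : Fin k => l i := by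
    rw [hS, Finset.coe_image, Finset.coe_univ, Set.image_univ]
  obtain ⟨h1, h2⟩ := Pool.Agent.MX.finrank_adjoin_le S (fun _ => k) (by
    intro z hz
    rw [hS, Finset.mem_image] at hz
    obtain ⟨i, -, rfl⟩ := hz
    exact ⟨cp k fun t => ((num t : ℚ) / (den t : ℚ) : ℚ), (cp_monic _ _).ne_zero,
      size_aeval k num den a u ha l c ex hrd i i.2, (cp_natDegree _ _).le⟩)
  rw [hSc] at h1 h2
  refine ⟨{ to_charZero := inferInstance, to_finiteDimensional := h1 }, h2.trans ?_⟩
  rw [Finset.prod_const]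
  have h3 : S.card ≤ k := by
    rw [hS]
    exact Finset.card_image_le.trans (by rw [Finset.card_univ, Fintype.card_fin])
  rcases Nat.eq_zero_or_pos k with h0 | h0
  · subst h0
    rw [Nat.le_zero.1 h3]
  · exact Nat.pow_le_pow_right h0 h3

include hden0 ha hrd in
/-- embeddings permute the roots -/
theorem rf_emb (i : ℕ) (hi : i < k) (h : l i ∈ RF k l) (τ : RF k l →+* ℂ) :
    ∃ i', i' < k ∧ τ ⟨l i, h⟩ = l i' := by
  classical
  have h1 : Polynomial.aeval (⟨l i, h⟩ : RF k l)
      (cp k fun t => ((num t : ℚ) / (den t : ℚ) : ℚ)) = 0 := by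
    apply (algebraMap (RF k l) ℂ).injective
    rw [← Polynomial.aeval_algebraMap_apply, map_zero]
    exact size_aeval k num den a u ha l c ex hrd i hi
  have h2 : Polynomial.aeval (τ ⟨l i, h⟩) (cp k fun t => ((num t : ℚ) / (den t : ℚ) : ℚ)) = 0 := by
    have := congrArg τ.toRatAlgHom h1
    rw [← Polynomial.aeval_algHom_apply, map_zero] at this
    exact this
  have h3 : (cp k fun t => (a t : ℂ)).eval (τ ⟨l i, h⟩) = 0 := by
    rw [← h2, cp, cp, map_sub, map_sum, map_pow, Polynomial.aeval_X, Polynomial.eval_sub,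
      Polynomial.eval_finsetSum, Polynomial.eval_pow, Polynomial.eval_X]
    congr 1
    refine Finset.sum_congr rfl fun t ht => ?_
    rw [map_mul, Polynomial.aeval_C, map_pow, Polynomial.aeval_X,
      size_aq k num den a ha t (Finset.mem_range.mp ht)]
    simp
  obtain ⟨i', h4, -⟩ := hrd.surj (τ ⟨l i, h⟩) 0 (by
    rw [Polynomial.count_roots, Polynomial.rootMultiplicity_pos (cp_monic _ _).ne_zero]
    exact h3)
  exact ⟨i', i'.2, h4.symm⟩

include hkL hden0 hnum hden ha hrd in
theorem root_sz [NumberField (RF k l)] (i : ℕ) (hi : i < k) (h : l i ∈ RF k l) :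
    ∃ A0 : ℕ, 0 < A0 ∧ A0 ≤ 2 ^ (L * L) ∧ Sz A0 (2 * L) (⟨l i, h⟩ : RF k l) := by
  have hrt : ∀ i, i < k → (l i) ^ k =
      ∑ t ∈ Finset.range k, ((num t : ℂ) / (den t : ℂ)) * (l i) ^ (k - 1 - t) := by
    intro i hi
    rw [hrd.root i hi]
    refine Finset.sum_congr rfl fun t ht => ?_
    rw [ha t (Finset.mem_range.mp ht)]
    push_cast
    rfl
  set A0 : ℕ := ∏ s ∈ Finset.range k, den s with hA0
  have hA0pos : 0 < A0 := Finset.prod_pos fun s hs => hden0 s (Finset.mem_range.mp hs)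
  have hA0le : A0 ≤ 2 ^ (L * L) := by
    have := prod_den_le (range k) den L (fun i hi => hden i (Finset.mem_range.mp hi))
    rw [Finset.card_range] at this
    exact this.trans (Nat.pow_le_pow_right (by norm_num) (Nat.mul_le_mul_left L hkL))
  have hint : IsIntegral ℤ ((A0 : ℂ) * l i) := by
    have h1 := isIntegral_leadingCoeff_smul _ _ (ipoly_aeval k num den hden0 (l i) (hrt i hi))
    have hlc : (ipoly k num den).leadingCoeff = (A0 : ℤ) := by
      have hck : (ipoly k num den).coeff k = (A0 : ℤ) := by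
        rw [ipoly_coeff, if_pos rfl, hA0]
        push_cast
        rfl
      have hnd : (ipoly k num den).natDegree = k := by
        apply le_antisymm (ipoly_natDegree k num den)
        apply Polynomial.le_natDegree_of_ne_zero
        rw [hck]
        exact_mod_cast hA0pos.ne'
      rw [Polynomial.leadingCoeff, hnd, hck]
    rw [hlc, zsmul_eq_mul] at h1
    exact_mod_cast h1
  refine ⟨A0, hA0pos, hA0le, ?_, fun τ => ?_⟩
  · rw [← isIntegral_algebraMap_iff (algebraMap (RF k l) ℂ).injective, map_mul, map_natCast]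
    exact hint
  · obtain ⟨i', hi', h1⟩ := rf_emb k num den hden0 a u ha l c ex hrd i hi h τ
    rw [h1]
    exact root_norm_le k num den L hkL hden0 hnum (l i') (hrt i' hi')

include hkL hden0 hdenu0 hnum hden hnumu hdenu ha hu hrd in
theorem coef_sz [NumberField (RF k l)] (i : ℕ) (hi : i < k) :
    ∃ (h : c i ∈ RF k l) (A0 : ℕ), 0 < A0 ∧ A0 ≤ 2 ^ pcf L ∧
      Sz A0 (pcf L) (⟨c i, h⟩ : RF k l) := by
  have hF : l i ∈ RF k l := IntermediateField.subset_adjoin _ _ ⟨⟨i, hi⟩, rfl⟩
  obtain ⟨h, hφ⟩ := Pool.Agent.MX.coef_field k a u (fun t ht => ⟨_, size_aq k num den a ha t ht⟩)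
    (fun t ht => ⟨_, size_aq k numu denu u hu t ht⟩) l c ex hrd i hi (RF k l) hF
  obtain ⟨hb, D0, hD0, hD1, hD2⟩ := Pool.Agent.MX.coef_bound k L hkL num numu den denu hden0 hdenu0
    hnum hden hnumu hdenu a u ha hu l c ex hrd
  refine ⟨h, D0, hD0, hD1, ?_, fun τ => ?_⟩
  · rw [← isIntegral_algebraMap_iff (algebraMap (RF k l) ℂ).injective, map_mul, map_natCast]
    exact hD2 i hi
  · obtain ⟨i', hi', h1⟩ := hφ τ.toRatAlgHom
    have h2 : τ ⟨c i, h⟩ = c i' := h1
    rw [h2]
    exact hb i' hi'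

end

end Pool.Agent.O9
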