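import Pool.Agent.O9.Square
import Pool.Agent.O9.Size

/-! Q5. No zeros at large indices on exceptional classes of order at most nine. -/

set_option autoImplicit false

namespace Pool.Agent.O9

open Filter Topology Finset UltPos Pool.Agent.PGap Pool.Agent.DD7719 Pool.Agent.DD7719.M

section Gd

variable {K : Type} [Field K] [NumberField K]

/-- denominator at most `2 ^ H` and conjugates of modulus at most `2 ^ H` -/
private def Gd (H : ℕ) (z : K) : Prop := ∃ A : ℕ, 0 < A ∧ A ≤ 2 ^ H ∧ Sz A H z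

private theorem Gd.mono {H H' : ℕ} {z : K} (h : Gd H z) (hH : H ≤ H') : Gd H' z := by
  obtain ⟨A, h1, h2, h3⟩ := h
  refine ⟨A, h1, h2.trans (Nat.pow_le_pow_right (by norm_num) hH), ?_⟩
  have := h3.mono 1 hH
  rwa [mul_one] at this

private theorem Gd.mul {H H' : ℕ} {z z' : K} (h : Gd H z) (h' : Gd H' z') :
    Gd (H + H') (z * z') := by
  obtain ⟨A, h1, h2, h3⟩ := h
  obtain ⟨A', h1', h2', h3'⟩ := h'
  refine ⟨A * A', Nat.mul_pos h1 h1', ?_, h3.mul h3'⟩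
  rw [pow_add]
  exact Nat.mul_le_mul h2 h2'

private theorem Gd.pow {H : ℕ} {z : K} (h : Gd H z) (n : ℕ) : Gd (H * n) (z ^ n) := by
  obtain ⟨A, h1, h2, h3⟩ := h
  refine ⟨A ^ n, Nat.pow_pos h1, ?_, h3.pow n⟩
  rw [pow_mul]
  exact Nat.pow_le_pow_left h2 n

private theorem Gd.inv {H : ℕ} {z : K} (h : Gd H z) (h0 : z ≠ 0) {d : ℕ}
    (hd : Module.finrank ℚ K ≤ d) : Gd (H * (2 * d + 1)) z⁻¹ := by
  obtain ⟨A, h1, h2, h3⟩ := h
  obtain ⟨A1, h4, h5, h6⟩ := Sz.inv h1 h2 h3 h0 d hd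
  have e : 2 * H * d + H = H * (2 * d + 1) := by ring
  rw [e] at h5 h6
  exact ⟨A1, h4, h5, h6⟩

private theorem Gd.div {H H' : ℕ} {z w : K} (h : Gd H z) (h' : Gd H' w) (h0 : w ≠ 0) {d : ℕ}
    (hd : Module.finrank ℚ K ≤ d) : Gd (H + H' * (2 * d + 1)) (z / w) := by
  rw [div_eq_mul_inv]
  exact h.mul (h'.inv h0 hd)

private theorem Gd.one : Gd 0 (1 : K) := by
  refine ⟨1, one_pos, le_refl _, ?_, fun τ => ?_⟩
  · rw [Nat.cast_one, one_mul]
    exact isIntegral_one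
  · rw [map_one, norm_one, pow_zero]

private theorem Gd.two : Gd 1 (2 : K) := by
  refine ⟨1, one_pos, by norm_num, ?_, fun τ => ?_⟩
  · rw [Nat.cast_one, one_mul]
    have : (2 : K) = algebraMap ℤ K 2 := by simp
    rw [this]
    exact isIntegral_algebraMap
  · rw [map_ofNat]
    simp

private theorem common {H : ℕ} (z : Fin 6 → K) (h : ∀ i, Gd H (z i)) :
    ∃ A0 : ℕ, 0 < A0 ∧ A0 ≤ 2 ^ (6 * H) ∧ ∀ i, Sz A0 (6 * H) (z i) := by
  choose A h1 h2 h3 using h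
  refine ⟨∏ i, A i, Finset.prod_pos fun i _ => h1 i, ?_, fun i => ?_⟩
  · calc ∏ i, A i ≤ ∏ _i : Fin 6, 2 ^ H := Finset.prod_le_prod' fun i _ => h2 i
      _ = 2 ^ (6 * H) := by
        rw [Finset.prod_const, ← pow_mul, Finset.card_univ, Fintype.card_fin, mul_comm]
  · rw [← Finset.mul_prod_erase Finset.univ A (Finset.mem_univ i)]
    exact (h3 i).mono _ (by omega)

end Gd

private theorem bd {B : ℕ} (hB : 2 ≤ B) {c b : ℕ} (hc : c ≤ 2 ^ b) (a : ℕ) :
    c * B ^ a ≤ B ^ (a + b) := by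
  rw [pow_add, mul_comm]
  exact Nat.mul_le_mul_left _ (hc.trans (Nat.pow_le_pow_left hB b))

private theorem num1 {B d : ℕ} (hB2 : 2 ≤ B) (hd29 : d ≤ 2 ^ 29) (C0 : ℕ) :
    (2 + d + 6 * B ^ 104) ^ C0 ≤ B ^ (109 * C0) := by
  have hB1 : 1 ≤ B := by omega
  rw [pow_mul]
  refine Nat.pow_le_pow_left ?_ C0
  have h3 : 2 ≤ B ^ 107 := by
    calc 2 = 2 ^ 1 := by norm_num
      _ ≤ B ^ 1 := Nat.pow_le_pow_left hB2 1
      _ ≤ B ^ 107 := Nat.pow_le_pow_right hB1 (by norm_num)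
  have h4 : d ≤ B ^ 107 := by
    calc d ≤ 2 ^ 29 := hd29
      _ ≤ B ^ 29 := Nat.pow_le_pow_left hB2 29
      _ ≤ B ^ 107 := Nat.pow_le_pow_right hB1 (by norm_num)
  have h5 : 6 * B ^ 104 ≤ B ^ (104 + 3) := bd hB2 (by norm_num) 104
  have h5' : B ^ (104 + 3) = B ^ 107 := rfl
  rw [h5'] at h5
  have h6 : 3 * B ^ 107 ≤ B ^ (107 + 2) := bd hB2 (by norm_num) 107
  have h6' : B ^ (107 + 2) = B ^ 109 := rfl
  rw [h6'] at h6
  omega

private theorem num2 {B E n : ℕ} (hB2 : 2 ≤ B) (hE : 0 < E) (hE38 : E ≤ 2 ^ 38) (C0 : ℕ)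
    (hn : 2 ^ (B ^ (109 * C0 + 6)) ≤ n) : 2 ^ (B ^ (109 * C0)) ≤ n / (2 * E) := by
  have h3 : B ^ (109 * C0) + 39 ≤ B ^ (109 * C0 + 6) := by
    have h4 : 1 ≤ B ^ (109 * C0) := Nat.one_le_pow _ _ (by omega)
    have h5 : 64 ≤ B ^ 6 := by
      calc 64 = 2 ^ 6 := by norm_num
        _ ≤ B ^ 6 := Nat.pow_le_pow_left hB2 6
    rw [pow_add]
    generalize B ^ (109 * C0) = P at *
    generalize B ^ 6 = Q at *
    nlinarith
  have h6 : 2 ^ (B ^ (109 * C0)) * 2 ^ 39 ≤ n := by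
    rw [← pow_add]
    exact (Nat.pow_le_pow_right (by norm_num) h3).trans hn
  rw [Nat.le_div_iff_mul_le (by omega)]
  refine (Nat.mul_le_mul_left _ ?_).trans h6
  have : (2 : ℕ) ^ 39 = 2 * 2 ^ 38 := by norm_num
  omega

/-- **No large zeros on exceptional classes.** `exc_structure`, `exc_square` with `s < 2E`,
`s ≡ n mod 2E`, and `no_zero` in the field `RF k l` (degree `≤ 9^9`), applied to
`X = (l_(e 1)/l_(e 0))^E`, `Y = (l_(e 3)/l_(e 0))^E` (all conjugates of modulus one, since embeddings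
permute the roots, which all have modulus `r`), with sizes polynomial in `L` from `root_sz`,
`coef_sz`, `Sz.inv`, `Sz.mul`, `Sz.pow`; the exponents `s`, `E` are bounded by a constant. -/
theorem nonzero_of_exc : ∃ C : ℕ, ∀ (k L : ℕ) (num numu : ℕ → ℤ) (den denu : ℕ → ℕ)
    (a u : ℕ → ℝ) (l c : ℕ → ℂ) (ex : ℕ → ℕ) (v : ℕ → ℝ) (E N J n : ℕ),
    k ≤ L → k ≤ 9 → (∀ t, t < k → 0 < den t) → (∀ t, t < k → 0 < denu t) →
    (∀ t, t < k → (num t).natAbs ≤ 2 ^ L) → (∀ t, t < k → den t ≤ 2 ^ L) →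
    (∀ t, t < k → (numu t).natAbs ≤ 2 ^ L) → (∀ t, t < k → denu t ≤ 2 ^ L) →
    (∀ t, t < k → a t = (num t : ℝ) / (den t : ℝ)) →
    (∀ t, t < k → u t = (numu t : ℝ) / (denu t : ℝ)) → RootData k a u l c ex →
    (∀ i, i < k → ex i = 0) → (∀ n, ∑ i : Fin k, c i * l i ^ n = (v n : ℂ)) → 0 < E →
    E ≤ 2 * (Nat.factorial 9) ^ 2 →
    (∀ z ∈ IntermediateField.adjoin ℚ (Set.range fun i : Fin k => l i),
      (∃ n : ℕ, 0 < n ∧ z ^ n = 1) → z ^ E = 1) →
    0 < N → ExcAt v N J → 2 ^ ((L + 2) ^ C) ≤ n → n ≡ J [MOD E] → v n ≠ 0 := by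
  obtain ⟨C0, hC0⟩ := no_zero
  refine ⟨109 * C0 + 6, ?_⟩
  intro k L num numu den denu a u l c ex v E N J n hkL hk9 hden0 hdenu0 hnum hden hnumu hdenu ha
    hu hrd hex hv hE hEle htor hN hexc hn hnJ hv0
  obtain ⟨hNF, hfin⟩ := rf_numberField k num den hden0 a u ha l c ex hrd
  have := hNF
  obtain ⟨r, e, α, β, x, y, hr, hα, hβ, hx, hy, hxy, he, hl, h1, h2⟩ :=
    exc_structure hk9 (fun i : Fin k => l i) (fun i : Fin k => c i) v hv N J hN hexc
  -- the index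
  set s := n % (2 * E) with hs
  set m := n / (2 * E) with hm
  have h2E : 0 < 2 * E := by omega
  have hsn : s + 2 * E * m = n := Nat.mod_add_div n (2 * E)
  have hsl : s < 2 * E := Nat.mod_lt _ h2E
  have hsJ : s ≡ J [MOD E] := by
    have h3 : s ≡ n [MOD E] := by
      have h4 : s ≡ n [MOD 2 * E] := Nat.mod_modEq n (2 * E)
      exact h4.of_dvd (Dvd.intro_left 2 rfl)
    exact h3.trans hnJ
  -- constants
  have hfac : 2 * (Nat.factorial 9) ^ 2 ≤ 2 ^ 38 := by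
    have : Nat.factorial 9 = 362880 := by decide
    rw [this]
    norm_num
  have hE38 : E ≤ 2 ^ 38 := hEle.trans hfac
  have hs39 : s ≤ 2 ^ 39 := by
    have : (2 : ℕ) ^ 39 = 2 * 2 ^ 38 := by norm_num
    omega
  set d : ℕ := 9 ^ 9 with hd
  have hfd : Module.finrank ℚ (RF k l) ≤ d := by
    refine hfin.trans ?_
    calc k ^ k ≤ 9 ^ k := Nat.pow_le_pow_left hk9 k
      _ ≤ 9 ^ 9 := Nat.pow_le_pow_right (by norm_num) hk9
  have hd30 : 2 * d + 2 ≤ 2 ^ 30 := by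
    rw [hd]
    norm_num
  have hd29 : d ≤ 2 ^ 29 := by
    rw [hd]
    norm_num
  set B := L + 2 with hB
  have hB2 : 2 ≤ B := by omega
  have hB1 : 1 ≤ B := by omega
  -- the elements of the field
  have hlm : ∀ i : Fin k, l i ∈ RF k l := fun i => IntermediateField.subset_adjoin ℚ _ ⟨i, rfl⟩
  have hcm := fun i : Fin k => coef_sz k L hkL num numu den denu hden0 hdenu0 hnum hden hnumu
    hdenu a u ha hu l c ex hrd i i.2
  let lK : Fin k → RF k l := fun i => ⟨l i, hlm i⟩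
  let cK : Fin k → RF k l := fun i => ⟨c i, (hcm i).choose⟩
  let φ : RF k l →+* ℂ := algebraMap (RF k l) ℂ
  have hφ : Function.Injective φ := φ.injective
  have hlK : ∀ i, φ (lK i) = l i := fun i => rfl
  have hcK : ∀ i, φ (cK i) = c i := fun i => rfl
  have hl0 : ∀ i, lK i ≠ 0 := by
    intro i h0
    have h3 : φ (lK i) = 0 := by rw [h0, map_zero]
    rw [hlK] at h3
    have h4 := hl i
    rw [h3, norm_zero] at h4
    exact hr.ne h4
  have gl : ∀ i, Gd (B ^ 2) (lK i) := by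
    intro i
    obtain ⟨A0, h3, h4, h5⟩ := root_sz k L hkL num den hden0 hnum hden a u ha l c ex hrd i i.2
      (hlm i)
    have h6 : L * L ≤ B ^ 2 := by
      rw [hB]
      nlinarith
    have h7 : 2 * L ≤ B ^ 2 := by
      rw [hB]
      nlinarith
    refine ⟨A0, h3, h4.trans (Nat.pow_le_pow_right (by norm_num) h6), ?_⟩
    have := h5.mono 1 h7
    rwa [mul_one] at this
  have gc : ∀ i, Gd (pcf L) (cK i) := by
    intro i
    exact (hcm i).choose_spec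
  let LLK : Fin 9 → RF k l := fun j => lK (e j) / lK (e 0)
  have hLL : ∀ j, φ (LLK j) = LL (fun i : Fin k => l i) e j := by
    intro j
    show φ (lK (e j) / lK (e 0)) = _
    rw [map_div₀]
    rfl
  have gLL : ∀ j, Gd (B ^ 32) (LLK j) := by
    intro j
    refine ((gl (e j)).div (gl (e 0)) (hl0 _) hfd).mono ?_
    calc B ^ 2 + B ^ 2 * (2 * d + 1) = (2 * d + 2) * B ^ 2 := by ring
      _ ≤ B ^ (2 + 30) := bd hB2 hd30 2
      _ = B ^ 32 := rfl
  let DDK : Fin 9 → RF k l := fun j => cK (e j) * LLK j ^ s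
  have hDD : ∀ j, φ (DDK j) = DD (fun i : Fin k => l i) (fun i : Fin k => c i) e s j := by
    intro j
    show φ (cK (e j) * LLK j ^ s) = _
    rw [map_mul, map_pow, hLL]
    rfl
  have gDD : ∀ j, Gd (B ^ 72) (DDK j) := by
    intro j
    refine ((gc (e j)).mul ((gLL j).pow s)).mono ?_
    have h3 : pcf L ≤ B ^ 71 := by
      unfold pcf
      calc 20 * (L + 1) ^ 4 ≤ 2 ^ 5 * B ^ 4 :=
            Nat.mul_le_mul (by norm_num) (Nat.pow_le_pow_left (by omega) 4)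
        _ ≤ B ^ (4 + 5) := bd hB2 le_rfl 4
        _ ≤ B ^ 71 := Nat.pow_le_pow_right hB1 (by norm_num)
    have h4 : B ^ 32 * s ≤ B ^ 71 := by
      calc B ^ 32 * s = s * B ^ 32 := mul_comm _ _
        _ ≤ B ^ (32 + 39) := bd hB2 hs39 32
        _ = B ^ 71 := rfl
    calc pcf L + B ^ 32 * s ≤ B ^ 71 + B ^ 71 := Nat.add_le_add h3 h4
      _ = 2 * B ^ 71 := by ring
      _ ≤ B ^ (71 + 1) := bd hB2 (by norm_num) 71
      _ = B ^ 72 := rfl
  obtain ⟨hDD0, -⟩ := identities (fun i : Fin k => l i) (fun i : Fin k => c i) r hr e α β x y hα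
    hβ hx hy hl N J hN h1 h2 E hE htor s hsJ
  have hDK0 : ∀ j, DDK j ≠ 0 := by
    intro j h0
    apply hDD0 j
    rw [← hDD, h0, map_zero]
  have h20 : (2 : RF k l) ≠ 0 := two_ne_zero
  -- the data
  let XK : RF k l := LLK 1 ^ E
  let YK : RF k l := LLK 3 ^ E
  let aK : RF k l := DDK 8 / DDK 5
  let bK : RF k l := DDK 5 / (2 * DDK 1)
  let bK' : RF k l := DDK 7 / (2 * DDK 1)
  have hLE : ∀ j, Gd (B ^ 104) (LLK j ^ E) := by
    intro j
    refine ((gLL j).pow E).mono ?_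
    calc B ^ 32 * E = E * B ^ 32 := mul_comm _ _
      _ ≤ B ^ (32 + 38) := bd hB2 hE38 32
      _ ≤ B ^ 104 := Nat.pow_le_pow_right hB1 (by norm_num)
  have ga : Gd (B ^ 104) aK := by
    refine ((gDD 8).div (gDD 5) (hDK0 5) hfd).mono ?_
    calc B ^ 72 + B ^ 72 * (2 * d + 1) = (2 * d + 2) * B ^ 72 := by ring
      _ ≤ B ^ (72 + 30) := bd hB2 hd30 72
      _ ≤ B ^ 104 := Nat.pow_le_pow_right hB1 (by norm_num)
  have g2 : ∀ j, Gd (B ^ 104) (DDK j / (2 * DDK 1)) := by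
    intro j
    refine ((gDD j).div (Gd.two.mul (gDD 1)) (mul_ne_zero h20 (hDK0 1)) hfd).mono ?_
    have h3 : 1 + B ^ 72 ≤ B ^ 73 := by
      have h4 : 1 ≤ B ^ 72 := Nat.one_le_pow _ _ (by omega)
      calc 1 + B ^ 72 ≤ 2 * B ^ 72 := by omega
        _ ≤ B ^ (72 + 1) := bd hB2 (by norm_num) 72
        _ = B ^ 73 := rfl
    calc B ^ 72 + (1 + B ^ 72) * (2 * d + 1) ≤ B ^ 73 + B ^ 73 * (2 * d + 1) :=
          Nat.add_le_add (Nat.pow_le_pow_right hB1 (by norm_num)) (Nat.mul_le_mul_right _ h3)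
      _ = (2 * d + 2) * B ^ 73 := by ring
      _ ≤ B ^ (73 + 30) := bd hB2 hd30 73
      _ ≤ B ^ 104 := Nat.pow_le_pow_right hB1 (by norm_num)
  have g1 : Gd (B ^ 104) (1 : RF k l) := Gd.one.mono (Nat.zero_le _)
  obtain ⟨A0, hA0, hA0h, hsz⟩ := common (H := B ^ 104) ![XK, YK, 1, aK, bK, bK'] (by
    intro i
    fin_cases i
    · exact hLE 1
    · exact hLE 3
    · exact g1
    · exact ga
    · exact g2 5
    · exact g2 7)
  -- the size of `m`
  have hmbig : 2 ^ ((2 + d + 6 * B ^ 104) ^ C0) ≤ m :=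
    (Nat.pow_le_pow_right (by norm_num) (num1 hB2 hd29 C0)).trans (num2 hB2 hE hE38 C0 hn)
  -- all conjugates have modulus one
  have hnorm : ∀ (j : Fin 9) (τ : RF k l →+* ℂ), ‖τ (LLK j ^ E)‖ = 1 := by
    intro j τ
    have h3 : ∀ i : Fin k, ‖τ (lK i)‖ = r := by
      intro i
      obtain ⟨i', hi', h4⟩ := rf_emb k num den hden0 a u ha l c ex hrd i i.2 (hlm i) τ
      have h5 : τ (lK i) = l i' := h4
      rw [h5]
      exact hl ⟨i', hi'⟩
    show ‖τ ((lK (e j) / lK (e 0)) ^ E)‖ = 1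
    rw [map_pow, map_div₀, norm_pow, norm_div, h3, h3, div_self hr.ne', one_pow]
  have hind : ∀ a b : ℤ, XK ^ a * YK ^ b = 1 → a = 0 ∧ b = 0 := by
    intro a b hab
    refine indep (fun i : Fin k => l i) r hr e x y hx hy hxy hl N hN h1 E hE a b ?_
    have h3 := congrArg φ hab
    rw [map_mul, map_zpow₀, map_zpow₀, map_one] at h3
    have h4 : φ XK = LL (fun i : Fin k => l i) e 1 ^ E := by
      show φ (LLK 1 ^ E) = _
      rw [map_pow, hLL]
    have h5 : φ YK = LL (fun i : Fin k => l i) e 3 ^ E := by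
      show φ (LLK 3 ^ E) = _
      rw [map_pow, hLL]
    rw [h4, h5] at h3
    exact h3
  have hne := hC0 (RF k l) d (6 * B ^ 104) m A0 XK YK 1 aK bK bK' hfd hA0 hA0h (hsz 0) (hsz 1)
    (hsz 2) (hsz 3) (hsz 4) (hsz 5) one_ne_zero
    (div_ne_zero (hDK0 5) (mul_ne_zero h20 (hDK0 1))) (div_ne_zero (hDK0 8) (hDK0 5))
    (div_ne_zero (hDK0 7) (mul_ne_zero h20 (hDK0 1))) (fun τ => ⟨hnorm 1 τ, hnorm 3 τ⟩) hind
    hmbig
  apply hne
  apply hφ
  rw [map_zero]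
  have hsq := exc_square (fun i : Fin k => l i) (fun i : Fin k => c i) r hr e α β x y hα hβ hx hy
    he hl N J hN h1 h2 E hE htor s hsJ m
  rw [hsn, hv n, hv0, Complex.ofReal_zero] at hsq
  have hz := hsq.symm
  rw [mul_eq_zero, mul_eq_zero] at hz
  have hle0 : (fun i : Fin k => l i) (e 0) ^ n ≠ 0 := by
    apply pow_ne_zero
    intro h0
    apply hl0 (e 0)
    apply hφ
    rw [map_zero]
    exact h0
  have hz2 := (hz.resolve_left (by
    rintro (h3 | h3)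
    · exact hle0 h3
    · exact hDD0 1 h3))
  have hz3 := pow_eq_zero_iff (two_ne_zero) |>.1 hz2
  simp only [← hLL, ← hDD] at hz3
  have h2φ : (2 : ℂ) = φ 2 := by rw [map_ofNat]
  rw [h2φ] at hz3
  simp only [← map_pow, ← map_inv₀, ← map_mul, ← map_div₀, ← map_add] at hz3
  rw [one_mul]
  exact hz3

end Pool.Agent.O9
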