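import Pool.Agent.O9.Structure

/-! Q3. The square over a residue class of bounded modulus. -/

set_option autoImplicit false

namespace Pool.Agent.O9

open Filter Topology Finset UltPos

/-- quotients of the roots -/
noncomputable def LL {k : ℕ} (l : Fin k → ℂ) (e : Fin 9 → Fin k) (j : Fin 9) : ℂ :=
  l (e j) / l (e 0)

/-- normalised coefficients -/
noncomputable def DD {k : ℕ} (l c : Fin k → ℂ) (e : Fin 9 → Fin k) (s : ℕ) (j : Fin 9) : ℂ :=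
  c (e j) * LL l e j ^ s

section

private theorem sq_ne {k : ℕ} {l : Fin k → ℂ} {r : ℝ} (hr : 0 < r) (hl : ∀ i, ‖l i‖ = r)
    (i : Fin k) : l i ≠ 0 := by
  intro h
  have := hl i
  rw [h, norm_zero] at this
  exact hr.ne this

private theorem sq_LL_ne {k : ℕ} {l : Fin k → ℂ} {r : ℝ} (hr : 0 < r) (hl : ∀ i, ‖l i‖ = r)
    (e : Fin 9 → Fin k) (j : Fin 9) : LL l e j ≠ 0 :=
  div_ne_zero (sq_ne hr hl _) (sq_ne hr hl _)

private theorem sq_LL_pow {k : ℕ} {l : Fin k → ℂ} {r : ℝ} (hr : 0 < r)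
    {e : Fin 9 → Fin k} {x y : ℂ} {N : ℕ}
    (h1 : ∀ j, l (e j) ^ N = (r : ℂ) ^ N * chr x y j) (j : Fin 9) :
    LL l e j ^ N = chr x y j := by
  have h0 : l (e 0) ^ N = (r : ℂ) ^ N := by
    rw [h1 0]
    exact mul_one _
  have hr' : (r : ℂ) ^ N ≠ 0 := pow_ne_zero _ (by exact_mod_cast hr.ne')
  rw [LL, div_pow, h1 j, h0, mul_div_cancel_left₀ _ hr']

private theorem sq_LL_mem {k : ℕ} (l : Fin k → ℂ) (e : Fin 9 → Fin k) (j : Fin 9) :
    LL l e j ∈ IntermediateField.adjoin ℚ (Set.range l) :=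
  div_mem (IntermediateField.subset_adjoin _ _ ⟨_, rfl⟩)
    (IntermediateField.subset_adjoin _ _ ⟨_, rfl⟩)

variable {k : ℕ} (l c : Fin k → ℂ) (r : ℝ) (hr : 0 < r) (e : Fin 9 → Fin k) (α β x y : ℂ)
  (hα : α ≠ 0) (hβ : β ≠ 0) (hx : ‖x‖ = 1) (hy : ‖y‖ = 1)
  (hxy : ∀ a b : ℤ, x ^ a * y ^ b = 1 → a = 0 ∧ b = 0) (he : Function.Bijective e)
  (hl : ∀ i, ‖l i‖ = r) (N J : ℕ) (hN : 0 < N)
  (h1 : ∀ j, l (e j) ^ N = (r : ℂ) ^ N * chr x y j)
  (h2 : ∀ j, c (e j) * l (e j) ^ J = cf α β j) (E : ℕ) (hE : 0 < E)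
  (htor : ∀ z ∈ IntermediateField.adjoin ℚ (Set.range l), (∃ n : ℕ, 0 < n ∧ z ^ n = 1) →
    z ^ E = 1)

include hr hx hy hl hN h1 hE htor in
/-- The relations, up to `E`-th powers: with `L_j = LL l e j`, the numbers `L_1 / (L_5 L_7)`,
`L_3 L_7 / L_5`, `L_1 L_2`, `L_3 L_4`, `L_5 L_6`, `L_7 L_8` have `N`-th power `1`. -/
theorem relations : LL l e 1 ^ E = LL l e 5 ^ E * LL l e 7 ^ E ∧
    LL l e 3 ^ E * LL l e 7 ^ E = LL l e 5 ^ E ∧ LL l e 1 ^ E * LL l e 2 ^ E = 1 ∧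
    LL l e 3 ^ E * LL l e 4 ^ E = 1 ∧ LL l e 5 ^ E * LL l e 6 ^ E = 1 ∧
    LL l e 7 ^ E * LL l e 8 ^ E = 1 := by
  have hx0 : x ≠ 0 := by
    intro h
    rw [h, norm_zero] at hx
    exact zero_ne_one hx
  have hy0 : y ≠ 0 := by
    intro h
    rw [h, norm_zero] at hy
    exact zero_ne_one hy
  have hne := sq_LL_ne hr hl e
  have hpow := sq_LL_pow hr h1
  have hmem := sq_LL_mem l e
  have hz : ∀ z ∈ IntermediateField.adjoin ℚ (Set.range l), z ^ N = 1 → z ^ E = 1 :=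
    fun z hz h => htor z hz ⟨N, hN, h⟩
  have p1 := hpow 1
  have p2 := hpow 2
  have p3 := hpow 3
  have p4 := hpow 4
  have p5 := hpow 5
  have p6 := hpow 6
  have p7 := hpow 7
  have p8 := hpow 8
  change _ = x ^ 2 at p1
  change _ = x⁻¹ ^ 2 at p2
  change _ = y ^ 2 at p3
  change _ = y⁻¹ ^ 2 at p4
  change _ = x * y at p5
  change _ = x⁻¹ * y⁻¹ at p6
  change _ = x * y⁻¹ at p7
  change _ = x⁻¹ * y at p8
  refine ⟨?_, ?_, ?_, ?_, ?_, ?_⟩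
  · have h := hz (LL l e 1 / (LL l e 5 * LL l e 7)) (div_mem (hmem 1) (mul_mem (hmem 5) (hmem 7)))
      (by rw [div_pow, mul_pow, p1, p5, p7]; field_simp)
    rw [div_pow, mul_pow, div_eq_one_iff_eq
      (mul_ne_zero (pow_ne_zero _ (hne 5)) (pow_ne_zero _ (hne 7)))] at h
    exact h
  · have h := hz (LL l e 3 * LL l e 7 / LL l e 5) (div_mem (mul_mem (hmem 3) (hmem 7)) (hmem 5))
      (by rw [div_pow, mul_pow, p3, p5, p7]; field_simp)
    rw [div_pow, mul_pow, div_eq_one_iff_eq (pow_ne_zero _ (hne 5))] at h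
    exact h
  · rw [← mul_pow]
    exact hz _ (mul_mem (hmem 1) (hmem 2)) (by rw [mul_pow, p1, p2]; field_simp)
  · rw [← mul_pow]
    exact hz _ (mul_mem (hmem 3) (hmem 4)) (by rw [mul_pow, p3, p4]; field_simp)
  · rw [← mul_pow]
    exact hz _ (mul_mem (hmem 5) (hmem 6)) (by rw [mul_pow, p5, p6]; field_simp)
  · rw [← mul_pow]
    exact hz _ (mul_mem (hmem 7) (hmem 8)) (by rw [mul_pow, p7, p8]; field_simp)

include hr hx hy hxy hl hN h1 hE in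
/-- independence -/
theorem indep (a b : ℤ) (h : (LL l e 1 ^ E) ^ a * (LL l e 3 ^ E) ^ b = 1) : a = 0 ∧ b = 0 := by
  have hpow := sq_LL_pow hr h1
  have p1 := hpow 1
  have p3 := hpow 3
  change _ = x ^ 2 at p1
  change _ = y ^ 2 at p3
  have h2 : ((LL l e 1 ^ E) ^ a * (LL l e 3 ^ E) ^ b) ^ N = x ^ (2 * E * a) * y ^ (2 * E * b) := by
    rw [mul_pow]
    have e1 : ∀ (z w : ℂ) (a : ℤ), z ^ N = w ^ 2 → ((z ^ E) ^ a) ^ N = w ^ (2 * E * a) := by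
      intro z w a hz
      rw [← zpow_natCast ((z ^ E) ^ a) N, ← zpow_mul, mul_comm a, zpow_mul, zpow_natCast,
        ← pow_mul, mul_comm E N, pow_mul, hz, ← pow_mul,
        show (2 * (E : ℤ) * a) = ((2 * E : ℕ) : ℤ) * a by push_cast; ring, zpow_mul,
        zpow_natCast]
    rw [e1 _ _ a p1, e1 _ _ b p3]
  rw [h, one_pow] at h2
  have h3 := hxy _ _ h2.symm
  have hE' : (E : ℤ) ≠ 0 := by exact_mod_cast hE.ne'
  refine ⟨?_, ?_⟩
  · rcases mul_eq_zero.1 h3.1 with h4 | h4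
    · exact absurd h4 (mul_ne_zero two_ne_zero hE')
    · exact h4
  · rcases mul_eq_zero.1 h3.2 with h4 | h4
    · exact absurd h4 (mul_ne_zero two_ne_zero hE')
    · exact h4

include hr hα hβ hx hy hl hN h1 h2 hE htor in
/-- The coefficient identities for `s ≡ J mod E`: with `D_j = DD l c e s j = cf_j λ (L_j^E)^t`,
`λ = l_(e 0)^-J`, `s = J + E t`, `t ∈ ℤ`. -/
theorem identities (s : ℕ) (hs : s ≡ J [MOD E]) : (∀ j, DD l c e s j ≠ 0) ∧
    DD l c e s 3 * (4 * DD l c e s 1) = DD l c e s 5 ^ 2 ∧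
    DD l c e s 4 * (4 * DD l c e s 1) = DD l c e s 7 ^ 2 ∧
    DD l c e s 6 * DD l c e s 5 = DD l c e s 8 * DD l c e s 7 ∧
    DD l c e s 2 * DD l c e s 5 ^ 2 = DD l c e s 8 ^ 2 * DD l c e s 1 ∧
    DD l c e s 0 * (2 * DD l c e s 1 * DD l c e s 5) =
      4 * DD l c e s 1 ^ 2 * DD l c e s 8 + DD l c e s 5 ^ 2 * DD l c e s 7 := by
  obtain ⟨r1, r2, r3, r4, r5, r6⟩ := relations l r hr e x y hx hy hl N hN h1 E hE htor
  have hne := sq_LL_ne hr hl e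
  have hl0 := sq_ne hr hl (e 0)
  obtain ⟨t, ht⟩ : ∃ t : ℤ, (s : ℤ) = J + E * t := by
    obtain ⟨t, ht⟩ := (Nat.modEq_iff_dvd.1 hs)
    exact ⟨-t, by linarith⟩
  have hM : ∀ j, LL l e j ^ E ≠ 0 := fun j => pow_ne_zero _ (hne j)
  have key : ∀ j, DD l c e s j = (l (e 0) ^ J)⁻¹ * (cf α β j * (LL l e j ^ E) ^ t) := by
    intro j
    have a1 : LL l e j ^ s = LL l e j ^ J * (LL l e j ^ E) ^ t := by
      rw [← zpow_natCast, ht, zpow_add₀ (hne j), zpow_mul, zpow_natCast, zpow_natCast]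
    rw [DD, a1, ← h2 j, LL, div_pow]
    field_simp
  have hP : ∀ j, (LL l e j ^ E) ^ t ≠ 0 := fun j => zpow_ne_zero _ (hM j)
  have s0 : (LL l e 0 ^ E) ^ t = 1 := by
    rw [LL, div_self hl0, one_pow, one_zpow]
  have s1 : (LL l e 1 ^ E) ^ t = (LL l e 5 ^ E) ^ t * (LL l e 7 ^ E) ^ t := by
    rw [r1, mul_zpow]
  have s2 : (LL l e 3 ^ E) ^ t * (LL l e 7 ^ E) ^ t = (LL l e 5 ^ E) ^ t := by
    rw [← mul_zpow, r2]
  have s3 : (LL l e 1 ^ E) ^ t * (LL l e 2 ^ E) ^ t = 1 := by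
    rw [← mul_zpow, r3, one_zpow]
  have s4 : (LL l e 3 ^ E) ^ t * (LL l e 4 ^ E) ^ t = 1 := by
    rw [← mul_zpow, r4, one_zpow]
  have s5 : (LL l e 5 ^ E) ^ t * (LL l e 6 ^ E) ^ t = 1 := by
    rw [← mul_zpow, r5, one_zpow]
  have s6 : (LL l e 7 ^ E) ^ t * (LL l e 8 ^ E) ^ t = 1 := by
    rw [← mul_zpow, r6, one_zpow]
  have k0 := key 0
  have k1 := key 1
  have k2 := key 2
  have k3 := key 3
  have k4 := key 4
  have k5 := key 5
  have k6 := key 6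
  have k7 := key 7
  have k8 := key 8
  have q5 := hP 5
  have q7 := hP 7
  have hnz : ∀ j, DD l c e s j ≠ 0 := fun j => by
    rw [key j]
    exact mul_ne_zero (inv_ne_zero (pow_ne_zero _ hl0))
      (mul_ne_zero (cf_ne_zero α β hα hβ j) (hP j))
  generalize (LL l e 0 ^ E) ^ t = P0 at *
  generalize (LL l e 1 ^ E) ^ t = P1 at *
  generalize (LL l e 2 ^ E) ^ t = P2 at *
  generalize (LL l e 3 ^ E) ^ t = P3 at *
  generalize (LL l e 4 ^ E) ^ t = P4 at *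
  generalize (LL l e 5 ^ E) ^ t = P5 at *
  generalize (LL l e 6 ^ E) ^ t = P6 at *
  generalize (LL l e 7 ^ E) ^ t = P7 at *
  generalize (LL l e 8 ^ E) ^ t = P8 at *
  generalize (l (e 0) ^ J)⁻¹ = u at *
  change _ = u * ((α * (starRingEnd ℂ) α + β * (starRingEnd ℂ) β) / 2 * P0) at k0
  change _ = u * (α ^ 2 / 4 * P1) at k1
  change _ = u * ((starRingEnd ℂ) α ^ 2 / 4 * P2) at k2
  change _ = u * (β ^ 2 / 4 * P3) at k3
  change _ = u * ((starRingEnd ℂ) β ^ 2 / 4 * P4) at k4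
  change _ = u * (α * β / 2 * P5) at k5
  change _ = u * ((starRingEnd ℂ) α * (starRingEnd ℂ) β / 2 * P6) at k6
  change _ = u * (α * (starRingEnd ℂ) β / 2 * P7) at k7
  change _ = u * ((starRingEnd ℂ) α * β / 2 * P8) at k8
  generalize (starRingEnd ℂ) α = α' at *
  generalize (starRingEnd ℂ) β = β' at *
  have t8 : P8 = P7⁻¹ := eq_inv_of_mul_eq_one_right s6
  have t6 : P6 = P5⁻¹ := eq_inv_of_mul_eq_one_right s5
  have t3 : P3 = P5 / P7 := by rw [eq_div_iff q7]; exact s2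
  have t4 : P4 = P7 / P5 := by
    rw [t3] at s4
    field_simp at s4 ⊢
    linear_combination s4
  have t2 : P2 = 1 / (P5 * P7) := by
    rw [s1] at s3
    field_simp at s3 ⊢
    linear_combination s3
  refine ⟨hnz, ?_, ?_, ?_, ?_, ?_⟩
  · rw [k3, k1, k5, t3, s1]
    field_simp
    ring
  · rw [k4, k1, k7, t4, s1]
    field_simp
    ring
  · rw [k6, k5, k8, k7, t6, t8]
    field_simp
  · rw [k2, k5, k8, k1, t2, t8, s1]
    field_simp
  · rw [k0, k1, k5, k8, k7, s0, t8, s1]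
    field_simp
    ring

include hr hα hβ hx hy he hl hN h1 h2 hE htor in
/-- **The square.** Expand the right side; the terms are `DD_j (L_j^(2E))^m`. -/
theorem exc_square (s : ℕ) (hs : s ≡ J [MOD E]) (m : ℕ) :
    ∑ i, c i * l i ^ (s + 2 * E * m) = l (e 0) ^ (s + 2 * E * m) * DD l c e s 1 *
      ((LL l e 1 ^ E) ^ m + DD l c e s 8 / DD l c e s 5 * (LL l e 1 ^ E)⁻¹ ^ m +
        DD l c e s 5 / (2 * DD l c e s 1) * (LL l e 3 ^ E) ^ m +
        DD l c e s 7 / (2 * DD l c e s 1) * (LL l e 3 ^ E)⁻¹ ^ m) ^ 2 := by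
  obtain ⟨r1, r2, r3, r4, r5, r6⟩ := relations l r hr e x y hx hy hl N hN h1 E hE htor
  obtain ⟨hnz, i1, i2, i3, i4, i5⟩ := identities l c r hr e α β x y hα hβ hx hy hl N J hN h1 h2 E
    hE htor s hs
  have hne := sq_LL_ne hr hl e
  have hl0 := sq_ne hr hl (e 0)
  have hM : ∀ j, LL l e j ^ E ≠ 0 := fun j => pow_ne_zero _ (hne j)
  have hsum : ∑ i, c i * l i ^ (s + 2 * E * m) =
      l (e 0) ^ (s + 2 * E * m) * ∑ j, DD l c e s j * ((LL l e j ^ E) ^ m) ^ 2 := by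
    rw [← Function.Bijective.sum_comp he (fun i => c i * l i ^ (s + 2 * E * m)), Finset.mul_sum]
    refine Finset.sum_congr rfl fun j _ => ?_
    have a1 : l (e j) = l (e 0) * LL l e j := by
      rw [LL]
      field_simp
    rw [a1, mul_pow, DD, pow_add (LL l e j), ← pow_mul, ← pow_mul,
      show 2 * E * m = E * m * 2 by ring]
    ring
  rw [hsum]
  have s0 : (LL l e 0 ^ E) ^ m = 1 := by
    rw [LL, div_self hl0, one_pow, one_pow]
  have s1 : (LL l e 1 ^ E) ^ m = (LL l e 5 ^ E) ^ m * (LL l e 7 ^ E) ^ m := by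
    rw [r1, mul_pow]
  have s2 : (LL l e 3 ^ E) ^ m * (LL l e 7 ^ E) ^ m = (LL l e 5 ^ E) ^ m := by
    rw [← mul_pow, r2]
  have s3 : (LL l e 1 ^ E) ^ m * (LL l e 2 ^ E) ^ m = 1 := by
    rw [← mul_pow, r3, one_pow]
  have s4 : (LL l e 3 ^ E) ^ m * (LL l e 4 ^ E) ^ m = 1 := by
    rw [← mul_pow, r4, one_pow]
  have s5 : (LL l e 5 ^ E) ^ m * (LL l e 6 ^ E) ^ m = 1 := by
    rw [← mul_pow, r5, one_pow]
  have s6 : (LL l e 7 ^ E) ^ m * (LL l e 8 ^ E) ^ m = 1 := by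
    rw [← mul_pow, r6, one_pow]
  have q5 : (LL l e 5 ^ E) ^ m ≠ 0 := pow_ne_zero _ (hM 5)
  have q7 : (LL l e 7 ^ E) ^ m ≠ 0 := pow_ne_zero _ (hM 7)
  have n1 := hnz 1
  have n5 := hnz 5
  rw [inv_pow, inv_pow, mul_assoc (l (e 0) ^ (s + 2 * E * m))]
  refine congrArg (fun z => l (e 0) ^ (s + 2 * E * m) * z) ?_
  simp only [Fin.sum_univ_succ, Fin.sum_univ_zero]
  change DD l c e s 0 * ((LL l e 0 ^ E) ^ m) ^ 2 + (DD l c e s 1 * ((LL l e 1 ^ E) ^ m) ^ 2 +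
    (DD l c e s 2 * ((LL l e 2 ^ E) ^ m) ^ 2 + (DD l c e s 3 * ((LL l e 3 ^ E) ^ m) ^ 2 +
    (DD l c e s 4 * ((LL l e 4 ^ E) ^ m) ^ 2 + (DD l c e s 5 * ((LL l e 5 ^ E) ^ m) ^ 2 +
    (DD l c e s 6 * ((LL l e 6 ^ E) ^ m) ^ 2 + (DD l c e s 7 * ((LL l e 7 ^ E) ^ m) ^ 2 +
    (DD l c e s 8 * ((LL l e 8 ^ E) ^ m) ^ 2 + 0)))))))) = _
  generalize (LL l e 0 ^ E) ^ m = P0 at *
  generalize (LL l e 1 ^ E) ^ m = P1 at *
  generalize (LL l e 2 ^ E) ^ m = P2 at *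
  generalize (LL l e 3 ^ E) ^ m = P3 at *
  generalize (LL l e 4 ^ E) ^ m = P4 at *
  generalize (LL l e 5 ^ E) ^ m = P5 at *
  generalize (LL l e 6 ^ E) ^ m = P6 at *
  generalize (LL l e 7 ^ E) ^ m = P7 at *
  generalize (LL l e 8 ^ E) ^ m = P8 at *
  generalize DD l c e s 0 = D0 at *
  generalize DD l c e s 1 = D1 at *
  generalize DD l c e s 2 = D2 at *
  generalize DD l c e s 3 = D3 at *
  generalize DD l c e s 4 = D4 at *
  generalize DD l c e s 5 = D5 at *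
  generalize DD l c e s 6 = D6 at *
  generalize DD l c e s 7 = D7 at *
  generalize DD l c e s 8 = D8 at *
  have t8 : P8 = P7⁻¹ := eq_inv_of_mul_eq_one_right s6
  have t6 : P6 = P5⁻¹ := eq_inv_of_mul_eq_one_right s5
  have t3 : P3 = P5 / P7 := by rw [eq_div_iff q7]; exact s2
  have t4 : P4 = P7 / P5 := by
    rw [t3] at s4
    field_simp at s4 ⊢
    linear_combination s4
  have t2 : P2 = 1 / (P5 * P7) := by
    rw [s1] at s3
    field_simp at s3 ⊢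
    linear_combination s3
  have j1 : D3 = D5 ^ 2 / (4 * D1) := by
    rw [eq_div_iff (mul_ne_zero (by norm_num) n1)]; exact i1
  have j2 : D4 = D7 ^ 2 / (4 * D1) := by
    rw [eq_div_iff (mul_ne_zero (by norm_num) n1)]; exact i2
  have j3 : D6 = D8 * D7 / D5 := by
    rw [eq_div_iff n5]; exact i3
  have j4 : D2 = D8 ^ 2 * D1 / D5 ^ 2 := by
    rw [eq_div_iff (pow_ne_zero _ n5)]; exact i4
  have j5 : D0 = (4 * D1 ^ 2 * D8 + D5 ^ 2 * D7) / (2 * D1 * D5) := by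
    rw [eq_div_iff (mul_ne_zero (mul_ne_zero two_ne_zero n1) n5)]; exact i5
  rw [j1, j2, j3, j4, j5, s0, s1, t2, t3, t4, t6, t8]
  field_simp
  ring

end

end Pool.Agent.O9
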