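import Pool.Agent.O9.ExpSum
import Pool.Agent.O9.Defs

/-! Q2. An exceptional class of a simple recurrence of order at most nine involves nine roots of
equal modulus. -/

set_option autoImplicit false

namespace Pool.Agent.O9

open Filter Topology Finset UltPos

/-- the nine characters of the square of a sum of two cosines -/
noncomputable def chr (x y : ℂ) : Fin 9 → ℂ :=
  ![1, x ^ 2, x⁻¹ ^ 2, y ^ 2, y⁻¹ ^ 2, x * y, x⁻¹ * y⁻¹, x * y⁻¹, x⁻¹ * y]

/-- the coefficients of the square of a sum of two cosines -/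
noncomputable def cf (α β : ℂ) : Fin 9 → ℂ :=
  ![(α * (starRingEnd ℂ) α + β * (starRingEnd ℂ) β) / 2, α ^ 2 / 4, (starRingEnd ℂ) α ^ 2 / 4,
    β ^ 2 / 4, (starRingEnd ℂ) β ^ 2 / 4, α * β / 2, (starRingEnd ℂ) α * (starRingEnd ℂ) β / 2,
    α * (starRingEnd ℂ) β / 2, (starRingEnd ℂ) α * β / 2]

theorem sq_expand (α β x y : ℂ) (hx : ‖x‖ = 1) (hy : ‖y‖ = 1) (m : ℕ) :
    ((((α * x ^ m).re + (β * y ^ m).re) ^ 2 : ℝ) : ℂ) = ∑ j, cf α β j * chr x y j ^ m := by
  have hx0 : x ≠ 0 := by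
    intro h; rw [h] at hx; simp at hx
  have hy0 : y ≠ 0 := by
    intro h; rw [h] at hy; simp at hy
  have hxc : (starRingEnd ℂ) x = x⁻¹ := (Complex.inv_eq_conj hx).symm
  have hyc : (starRingEnd ℂ) y = y⁻¹ := (Complex.inv_eq_conj hy).symm
  have h1 : ∀ z : ℂ, ((z.re : ℝ) : ℂ) = (z + (starRingEnd ℂ) z) / 2 := fun z => by
    rw [Complex.add_conj]; push_cast; ring
  have hX : x ^ m * x⁻¹ ^ m = 1 := by rw [← mul_pow, mul_inv_cancel₀ hx0, one_pow]
  have hY : y ^ m * y⁻¹ ^ m = 1 := by rw [← mul_pow, mul_inv_cancel₀ hy0, one_pow]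
  push_cast
  rw [h1, h1, map_mul, map_mul, map_pow, map_pow, hxc, hyc]
  simp only [Fin.sum_univ_succ, Fin.sum_univ_zero, cf, chr, Matrix.cons_val_zero,
    Matrix.cons_val_succ, one_pow, mul_one, mul_pow, add_zero]
  simp only [← pow_mul, mul_comm 2 m]
  simp only [pow_mul]
  generalize hA : x ^ m = X at *
  generalize hA' : x⁻¹ ^ m = X' at *
  generalize hB : y ^ m = Y at *
  generalize hB' : y⁻¹ ^ m = Y' at *
  generalize (starRingEnd ℂ) α = α' at *
  generalize (starRingEnd ℂ) β = β' at *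
  linear_combination (α * α' / 2) * hX + (β * β' / 2) * hY

private def ea : Fin 9 → ℤ := ![0, 2, -2, 0, 0, 1, -1, 1, -1]

private def eb : Fin 9 → ℤ := ![0, 0, 0, 2, -2, 1, -1, -1, 1]

theorem chr_injective (x y : ℂ) (hx : ‖x‖ = 1) (hy : ‖y‖ = 1)
    (h : ∀ a b : ℤ, x ^ a * y ^ b = 1 → a = 0 ∧ b = 0) : Function.Injective (chr x y) := by
  have hx0 : x ≠ 0 := by
    intro h; rw [h] at hx; simp at hx
  have hy0 : y ≠ 0 := by
    intro h; rw [h] at hy; simp at hy
  have key : ∀ j, chr x y j = x ^ ea j * y ^ eb j := by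
    intro j
    fin_cases j <;> simp [chr, ea, eb, zpow_neg]
  intro i j hij
  rw [key, key] at hij
  have h1 : x ^ (ea i - ea j) * y ^ (eb i - eb j) = 1 := by
    rw [zpow_sub₀ hx0, zpow_sub₀ hy0]
    field_simp
    exact hij
  obtain ⟨h2, h3⟩ := h _ _ h1
  have h4 : ∀ i j : Fin 9, ea i - ea j = 0 → eb i - eb j = 0 → i = j := by decide
  exact h4 i j h2 h3

theorem norm_chr (x y : ℂ) (hx : ‖x‖ = 1) (hy : ‖y‖ = 1) (j : Fin 9) : ‖chr x y j‖ = 1 := by
  fin_cases j <;> simp [chr, hx, hy]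

theorem cf_ne_zero (α β : ℂ) (hα : α ≠ 0) (hβ : β ≠ 0) (j : Fin 9) : cf α β j ≠ 0 := by
  have hα' : (starRingEnd ℂ) α ≠ 0 := by simpa using hα
  have hβ' : (starRingEnd ℂ) β ≠ 0 := by simpa using hβ
  have h0 : α * (starRingEnd ℂ) α + β * (starRingEnd ℂ) β ≠ 0 := by
    rw [Complex.mul_conj, Complex.mul_conj]
    have h1 := Complex.normSq_pos.2 hα
    have h2 := Complex.normSq_pos.2 hβ
    have h3 : Complex.normSq α + Complex.normSq β ≠ 0 := by positivity
    exact_mod_cast h3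
  have h2 : (2 : ℂ) ≠ 0 := two_ne_zero
  have h4 : (4 : ℂ) ≠ 0 := by norm_num
  fin_cases j
  · exact div_ne_zero h0 h2
  · change α ^ 2 / 4 ≠ 0
    exact div_ne_zero (pow_ne_zero 2 hα) h4
  · change (starRingEnd ℂ) α ^ 2 / 4 ≠ 0
    exact div_ne_zero (pow_ne_zero 2 hα') h4
  · change β ^ 2 / 4 ≠ 0
    exact div_ne_zero (pow_ne_zero 2 hβ) h4
  · change (starRingEnd ℂ) β ^ 2 / 4 ≠ 0
    exact div_ne_zero (pow_ne_zero 2 hβ') h4
  · exact div_ne_zero (mul_ne_zero hα hβ) h2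
  · exact div_ne_zero (mul_ne_zero hα' hβ') h2
  · exact div_ne_zero (mul_ne_zero hα hβ') h2
  · exact div_ne_zero (mul_ne_zero hα' hβ) h2

/-- **The structure of an exceptional class of order at most nine.** The difference of
`∑ c_i l_i^J (l_i^N / ρ)^m` and `∑ cf_j chr_j^m` tends to `0`, so by `expsum_tendsto` each of the nine
distinct `chr_j` is `l_i^N / ρ` for some `i`; as `k ≤ 9` this is a bijection, and the coefficients
agree. `r = ρ^(1/N)`. -/
theorem exc_structure {k : ℕ} (hk : k ≤ 9) (l c : Fin k → ℂ) (v : ℕ → ℝ)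
    (hv : ∀ n, ∑ i, c i * l i ^ n = (v n : ℂ)) (N J : ℕ) (hN : 0 < N) (h : ExcAt v N J) :
    ∃ (r : ℝ) (e : Fin 9 → Fin k) (α β x y : ℂ), 0 < r ∧ α ≠ 0 ∧ β ≠ 0 ∧ ‖x‖ = 1 ∧ ‖y‖ = 1 ∧
      (∀ a b : ℤ, x ^ a * y ^ b = 1 → a = 0 ∧ b = 0) ∧ Function.Bijective e ∧
      (∀ i, ‖l i‖ = r) ∧ (∀ j, l (e j) ^ N = (r : ℂ) ^ N * chr x y j) ∧
      ∀ j, c (e j) * l (e j) ^ J = cf α β j := by
  classical
  obtain ⟨ρ, α, β, x, y, hρ, hα, hβ, hx, hy, hxy, hlim⟩ := h
  have hρC : (ρ : ℂ) ≠ 0 := by exact_mod_cast hρ.ne'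
  set M : Finset ℂ := univ.image (fun i => l i ^ N / (ρ : ℂ)) ∪ univ.image (chr x y) with hM
  set C : ℂ → ℂ := fun μ => ∑ i with l i ^ N / (ρ : ℂ) = μ, c i * l i ^ J -
    ∑ j with chr x y j = μ, cf α β j with hC
  have hsum : ∀ m : ℕ, ∑ μ ∈ M, C μ * μ ^ m =
      ((v (N * m + J) / ρ ^ m - ((α * x ^ m).re + (β * y ^ m).re) ^ 2 : ℝ) : ℂ) := by
    intro m
    rw [Complex.ofReal_sub, sq_expand α β x y hx hy m]
    have h1 : ∑ μ ∈ M, (∑ i with l i ^ N / (ρ : ℂ) = μ, c i * l i ^ J) * μ ^ m =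
        ∑ i, c i * l i ^ J * (l i ^ N / (ρ : ℂ)) ^ m := by
      rw [← Finset.sum_fiberwise_of_maps_to (s := univ) (t := M)
        (g := fun i => l i ^ N / (ρ : ℂ))
        (fun i _ => Finset.mem_union_left _ (Finset.mem_image_of_mem _ (Finset.mem_univ i)))]
      refine Finset.sum_congr rfl fun μ _ => ?_
      rw [Finset.sum_mul]
      refine Finset.sum_congr rfl fun i hi => ?_
      rw [(Finset.mem_filter.1 hi).2]
    have h2 : ∑ μ ∈ M, (∑ j with chr x y j = μ, cf α β j) * μ ^ m =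
        ∑ j, cf α β j * chr x y j ^ m := by
      rw [← Finset.sum_fiberwise_of_maps_to (s := univ) (t := M)
        (g := fun j => chr x y j)
        (fun i _ => Finset.mem_union_right _ (Finset.mem_image_of_mem _ (Finset.mem_univ i)))]
      refine Finset.sum_congr rfl fun μ _ => ?_
      rw [Finset.sum_mul]
      refine Finset.sum_congr rfl fun i hi => ?_
      rw [(Finset.mem_filter.1 hi).2]
    simp only [hC, sub_mul, Finset.sum_sub_distrib]
    rw [h1, h2]
    congr 1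
    push_cast
    rw [← hv, Finset.sum_div]
    refine Finset.sum_congr rfl fun i _ => ?_
    rw [div_pow, pow_add, pow_mul]
    ring
  have hlim' : Tendsto (fun m : ℕ => ∑ μ ∈ M, C μ * μ ^ m) atTop (𝓝 0) := by
    simp only [hsum]
    have := (Complex.continuous_ofReal.tendsto (0 : ℝ)).comp hlim
    rw [Complex.ofReal_zero] at this
    exact this
  have hinj := chr_injective x y hx hy hxy
  have hz := expsum_tendsto M C hlim'
  have hCj : ∀ j, ∑ i with l i ^ N / (ρ : ℂ) = chr x y j, c i * l i ^ J = cf α β j := by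
    intro j
    have h1 := hz (chr x y j)
      (Finset.mem_union_right _ (Finset.mem_image_of_mem _ (Finset.mem_univ j)))
      (by rw [norm_chr x y hx hy])
    have h2 : (univ.filter fun j' => chr x y j' = chr x y j) = {j} := by
      ext j'
      simp [hinj.eq_iff]
    simp only [hC] at h1
    rw [h2, Finset.sum_singleton, sub_eq_zero] at h1
    exact h1
  have hex : ∀ j, ∃ i, l i ^ N / (ρ : ℂ) = chr x y j := by
    intro j
    by_contra hne
    push Not at hne
    have h1 := hCj j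
    rw [Finset.filter_false_of_mem (fun i _ => hne i), Finset.sum_empty] at h1
    exact cf_ne_zero α β hα hβ j h1.symm
  choose e he using hex
  have heinj : Function.Injective e := by
    intro i j hij
    apply hinj
    rw [← he i, ← he j, hij]
  have hk9 : k = 9 := by
    have := Fintype.card_le_of_injective e heinj
    simp at this
    omega
  have hbij : Function.Bijective e := by
    rw [Fintype.bijective_iff_injective_and_card]
    exact ⟨heinj, by simp [hk9]⟩
  set r : ℝ := ρ ^ ((1 : ℝ) / N) with hr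
  have hr0 : 0 < r := Real.rpow_pos_of_pos hρ _
  have hrN : r ^ N = ρ := by
    rw [hr, ← Real.rpow_natCast, ← Real.rpow_mul hρ.le]
    rw [one_div, inv_mul_cancel₀ (by exact_mod_cast hN.ne'), Real.rpow_one]
  have hlN : ∀ j, l (e j) ^ N = (r : ℂ) ^ N * chr x y j := by
    intro j
    rw [← he j, ← Complex.ofReal_pow, hrN]
    field_simp
  refine ⟨r, e, α, β, x, y, hr0, hα, hβ, hx, hy, hxy, hbij, ?_, hlN, ?_⟩
  · intro i
    obtain ⟨j, rfl⟩ := hbij.2 i
    have h1 : ‖l (e j)‖ ^ N = r ^ N := by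
      rw [← norm_pow, hlN j, norm_mul, norm_chr x y hx hy, mul_one, norm_pow, Complex.norm_real,
        Real.norm_of_nonneg hr0.le]
    exact (pow_left_inj₀ (norm_nonneg _) hr0.le hN.ne').1 h1
  · intro j
    rw [← hCj j]
    have h2 : (univ.filter fun i => l i ^ N / (ρ : ℂ) = chr x y j) = {e j} := by
      ext i
      obtain ⟨j', rfl⟩ := hbij.2 i
      simp only [Finset.mem_filter, Finset.mem_univ, true_and, Finset.mem_singleton]
      rw [he j', hinj.eq_iff, hbij.1.eq_iff]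
    rw [h2, Finset.sum_singleton]

end Pool.Agent.O9
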