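import Pool.Agent.O9.Lower
import Pool.Agent.O9.Case
import Pool.Agent.O9.Dich
import Pool.Agent.O9.Circle
import Pool.Agent.O9.NZDef

/-! U5. Positivity beyond the threshold for simple ultimately positive instances of order at most
nine. -/

set_option autoImplicit false
set_option linter.unusedSectionVars false

namespace Pool.Agent.UltPos

open Pool.Agent.PT Pool.Agent.AllR Pool.Agent.DD7719.M Pool.Agent.DD7719 Finset

section
variable (I : Inst) (L : ℕ) (hkL : I.k ≤ L)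
    (hb : ∀ i, (I.aNum i).natAbs ≤ 2 ^ L ∧ I.aDen i ≤ 2 ^ L)
    (hbu : ∀ i, (I.uNum i).natAbs ≤ 2 ^ L ∧ I.uDen i ≤ 2 ^ L) (aR uR : ℕ → ℝ)
    (ha : ∀ t (h : t < I.k), aR t = (I.a ⟨t, h⟩ : ℝ)) (hu : ∀ t (h : t < I.k), uR t = (I.u ⟨t, h⟩ : ℝ))
    (v : ℕ → ℚ) (hv : I.IsSeq v)

include ha hu hv in
/-- simple instances: the sequence as a sum of powers -/
theorem Inst.all_simple (hS : I.Simple) {l c : ℕ → ℂ} {ex : ℕ → ℕ}
    (hrd : RootData I.k aR uR l c ex) (n : ℕ) :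
    ∑ i : Fin I.k, c i * l i ^ n = (((v n : ℚ) : ℝ) : ℂ) := by
  rw [← I.all' aR uR ha hu v hv hrd n]
  refine Finset.sum_congr rfl fun i _ => ?_
  rw [I.ex_zero aR uR ha hS hrd i i.2]
  simp

include hkL hb ha hu hv in
/-- **Narrow or exceptional**, for the class data. -/
theorem Inst.clsU_cases (hS : I.Simple) (hU : ∃ N0, ∀ n, N0 ≤ n → 0 < v n) (hk9 : I.k ≤ 10)
    {l c : ℕ → ℂ} {ex : ℕ → ℕ} (hrd : RootData I.k aR uR l c ex) (n0 : ℕ) (hn0 : 0 < n0)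
    (htf : ∀ (g : Fin I.k → ℤ) (n : ℕ), 0 < n → (∏ i : Fin I.k, (nz (l i) ^ n0) ^ g i) ^ n = 1 →
        ∏ i : Fin I.k, (nz (l i) ^ n0) ^ g i = 1) (j : ℕ)
    (h : ClsU I.k (fun i => l i) (fun i => c i) (fun i => ex i)
        (2 ^ pmh L) (2 ^ (1 + 2 * L * L + (pdl L + 3) * L)) (2 / ((2 ^ pq L : ℕ) : ℝ))
        (1 / 2 ^ pdl L) n0 j) :
    ClsD I.k (fun i => l i) (fun i => c i) (fun i => ex i)
        (2 ^ pmh L) (2 ^ (1 + 2 * L * L + (pdl L + 3) * L)) (2 / ((2 ^ pq L : ℕ) : ℝ))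
        (1 / 2 ^ pdl L) n0 j ∨
      ∃ N' J' : ℕ, 0 < N' ∧
        ExcAt (fun n => ((v n : ℚ) : ℝ)) (n0 * N') (j % n0 + n0 * J') := by
  have hUr : ∃ N0, ∀ n, N0 ≤ n → 0 < ((v n : ℚ) : ℝ) := by
    obtain ⟨N0, hN0⟩ := hU
    exact ⟨N0, fun n hn => by exact_mod_cast hN0 n hn⟩
  rcases O9.class_dichotomy (k := I.k) (fun i => l i) (fun i => c i)
    (I.l_injective aR uR ha hS hrd) (fun n => ((v n : ℚ) : ℝ))
    (I.all_simple aR uR ha hu v hv hS hrd) hUr (fun r _ => (Finset.card_le_univ _).trans (by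
      rw [Fintype.card_fin]; exact hk9)) n0 (j % n0) hn0 htf with hnar | hexc
  · left
    obtain ⟨A, H, D, s, w, τ, x, i0, hrep, hbase, hi0, ⟨z', hz', hne⟩, hF, hvan⟩ := h
    refine ⟨A, H, D, s, w, τ, x, i0, hrep, hbase, hi0, ⟨z', hz', hne⟩, hF, ?_, hvan⟩
    refine case_of_narrow (k := I.k) (fun i => l i) (fun i => c i) (fun i => ex i) (2 ^ pr L)
      (2 ^ pbm L) (2 ^ pbn L) _ _ (fun n => ((v n : ℚ) : ℝ))
      (I.goodD L hkL hb aR uR ha hu v hv hrd) hUr n0 j A H D s w τ i0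
      (hbase.mono (two_pow_lt_pbm L).le (two_pow_lt_pbn L).le) hi0 z' hz' hne hF hnar
  · right
    exact hexc

include hkL hb hbu ha hu hv in
/-- exceptional classes: positivity beyond a threshold -/
theorem Inst.exc_pos (hS : I.Simple) (hU : ∃ N0, ∀ n, N0 ≤ n → 0 < v n) (hk9 : I.k ≤ 9)
    (C9 : ℕ) (hC9 : O9.NZ C9) {l c : ℕ → ℂ} {ex : ℕ → ℕ} (hrd : RootData I.k aR uR l c ex)
    (E n0 : ℕ) (hE0 : 0 < E) (hEle : E ≤ 2 * (Nat.factorial I.k) ^ 2)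
    (hEtor : ∀ z ∈ IntermediateField.adjoin ℚ (Set.range fun i : Fin I.k => l i),
        (∃ n : ℕ, 0 < n ∧ z ^ n = 1) → z ^ E = 1) (hn0 : 0 < n0) (hEn0 : E ∣ n0) (j m : ℕ)
    (N' J' : ℕ) (hN' : 0 < N')
    (hexc : ExcAt (fun n => ((v n : ℚ) : ℝ)) (n0 * N') (j % n0 + n0 * J'))
    (hn : 2 ^ ((L + 2) ^ C9) ≤ j + n0 * m) : 0 < v (j + n0 * m) := by
  have hUr : ∃ N0, ∀ n, N0 ≤ n → 0 < ((v n : ℚ) : ℝ) := by
    obtain ⟨N0, hN0⟩ := hU
    exact ⟨N0, fun n hn => by exact_mod_cast hN0 n hn⟩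
  have hall := I.all_simple aR uR ha hu v hv hS hrd
  obtain ⟨⟨r, hr, hlr⟩, -⟩ := O9.exc_pair (k := I.k) hk9 (fun i => l i) (fun i => c i)
    (fun n => ((v n : ℚ) : ℝ)) hall _ _ (Nat.mul_pos hn0 hN') hexc
  have h0 := O9.nonneg_of_circle (k := I.k) (fun i => l i) (fun i => c i)
    (fun n => ((v n : ℚ) : ℝ)) hall r hr hlr hUr (j + n0 * m)
  have hmod : j + n0 * m ≡ j % n0 + n0 * J' [MOD E] := by
    refine Nat.ModEq.of_dvd hEn0 ?_
    unfold Nat.ModEq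
    rw [Nat.add_mul_mod_self_left, Nat.add_mul_mod_self_left, Nat.mod_mod]
  have hE9 : E ≤ 2 * (Nat.factorial 9) ^ 2 :=
    hEle.trans (Nat.mul_le_mul_left 2 (Nat.pow_le_pow_left (Nat.factorial_le hk9) 2))
  have hne : ((v (j + n0 * m) : ℚ) : ℝ) ≠ 0 := by
    refine hC9 I.k L I.num (fun t => if h : t < I.k then I.uNum ⟨t, h⟩ else 0) I.den
      (fun t => if h : t < I.k then I.uDen ⟨t, h⟩ else 1) aR uR l c ex
      (fun n => ((v n : ℚ) : ℝ)) E (n0 * N') (j % n0 + n0 * J') (j + n0 * m) hkL hk9 I.den_pos' ?_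
      (I.num_le' L hb) (I.den_le' L hb) ?_ ?_ ?_ ?_ hrd
      (fun i hi => I.ex_zero aR uR ha hS hrd i hi) hall hE0 hE9 hEtor (Nat.mul_pos hn0 hN') hexc
      hn hmod
    · intro t ht
      simp only [ht, dif_pos]
      exact I.uDen_pos _
    · intro t ht
      simp only [ht, dif_pos]
      exact (hbu _).1
    · intro t ht
      simp only [ht, dif_pos]
      exact (hbu _).2
    · intro t ht
      rw [ha t ht]
      simp only [Inst.num, Inst.den, ht, dif_pos, Inst.a]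
      push_cast
      rfl
    · intro t ht
      rw [hu t ht]
      simp only [ht, dif_pos, Inst.u]
      push_cast
      rfl
  have h1 : 0 < ((v (j + n0 * m) : ℚ) : ℝ) := lt_of_le_of_ne h0 hne.symm
  exact_mod_cast h1

include hkL hb hbu ha hu hv in
/-- **Explicit threshold** for simple ultimately positive instances of order at most nine. -/
theorem Inst.pos_of_nine (C C9 : ℕ) (hC : GapC C) (hC9 : O9.NZ C9) (P P0 P2 : ℕ)
    (hS : I.Simple) (hU : I.UltimatelyPositive) (hk9 : I.k ≤ 9)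
    (hP : ∀ p0 p1 p2 p3 : ℕ, p0 ≤ 2 ^ (pbn L + L) → p1 ≤ 2 ^ (pbn L + L) →
      p2 ≤ 2 ^ (pbn L + L) → p3 ≤ 2 ^ (pbn L + L) →
      ElimP P (fun t y => I.RR L aR uR (v6 t y p0 p1 p2 p3)))
    (hP0 : Tm (fun n => ((v n : ℚ) : ℝ)) →
      ∀ t, (∃ (l c : ℕ → ℂ) (ex : ℕ → ℕ), RootData I.k aR uR l c ex ∧
      CertBN I.k l c ex (pbm L) (pbn L) (2 / ((2 ^ pq L : ℕ) : ℝ)) (1 / 2 ^ pdl L) (PR t)) →
      t ≤ 2 ^ 2 ^ P0)
    (hP2 : ∀ t, (∃ (l c : ℕ → ℂ) (ex : ℕ → ℕ), RootData I.k aR uR l c ex ∧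
      t ≤ ∑ i ∈ range I.k, ‖c i‖) → t ≤ 2 ^ 2 ^ P2) (n : ℕ)
    (hn : 2 ^ (pth L P0 P2 + pthN C L P P2 + (L + 2) ^ C9) ≤ n) :
    0 < v n := by
  classical
  have hn9 : 2 ^ ((L + 2) ^ C9) ≤ n :=
    le_trans (Nat.pow_le_pow_right (by norm_num) (Nat.le_add_left _ _)) hn
  have hUv : ∃ N0, ∀ n, N0 ≤ n → 0 < v n := (I.up_iff hv).mp hU
  obtain ⟨l, c, ex, hrd, hsort⟩ := exists_sorted (I.exists_rootData' aR uR ha hu)
  obtain ⟨E, n0, hE0, hEle, hEtor, hn0, hn0Nb, hEn0', htf, htor, hclsU⟩ :=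
    I.exists_clsU L hkL hb aR uR ha hu v hv hS hU hrd
  have hEn0 : E ∣ n0 := dvd_trans (Dvd.intro_left 2 rfl) hEn0'
  have hcls := fun j hj hj' => I.clsU_cases L hkL hb aR uR ha hu v hv hS hUv (by omega) hrd n0 hn0
    htf j (hclsU j hj hj')
  by_cases hA : ∀ j, I.k ≤ j → j < I.k + n0 → ∃ (A H : Fin I.k → Fin I.k → ℤ) (D : ℤ) (s : ℕ)
      (w : Fin I.k → Fin I.k → ℝ) (τ : Fin I.k → ℝ) (x : Fin I.k → ℝ) (i0 : Fin I.k),
      Rep (fun i : Fin I.k => l i) n0 A s x ∧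
      BaseF I.k (fun i => l i) (fun i => c i) (fun i => ex i) (2 ^ pmh L)
        (2 ^ (1 + 2 * L * L + (pdl L + 3) * L)) (2 / ((2 ^ pq L : ℕ) : ℝ)) (1 / 2 ^ pdl L) n0 j
        A H D s w τ ‖l i0‖ 0 ∧
      l i0 ≠ 0 ∧
      (∀ z : Fin I.k → ℂ, (∀ t, ‖z t‖ = 1) → 0 < (LevF (fun i : Fin I.k => l i) (fun i => c i)
        (fun i => ex i) A s j 0 ‖l i0‖ z).re) ∧
      (∀ m, ∑ i : Fin I.k, (if Above ‖l i0‖ 0 (l i) (ex i) then
            c i * ((j + n0 * m).choose (ex i) : ℂ) * l i ^ (j + n0 * m - ex i) else 0) = 0)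
  · have hT := I.tm_of_cls L hkL hb aR uR ha hu v hv hrd n0 hn0 _ _ _ _ hA
    exact I.pos_of_tm L hkL hb aR uR ha hu v hv hT P0 P2 (hP0 hT) hP2 n
      (le_trans (Nat.pow_le_pow_right (by norm_num)
        ((Nat.le_add_right _ _).trans (Nat.le_add_right _ _))) hn)
  · -- there is a ratio that is not a root of unity
    obtain ⟨a, a', haa, hane⟩ : ∃ a a' : Fin I.k, ‖l a‖ = ‖l a'‖ ∧ l a ^ n0 ≠ l a' ^ n0 := by
      by_contra hcon
      push Not at hcon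
      apply hA
      intro j hj hj'
      rcases hcls j hj hj' with hD | ⟨N', J', hN', hexc⟩
      · obtain ⟨A, H, D, s, w, τ, x, i0, hrep, hbase, hi0, -, -, hcase, hvan⟩ := hD
        refine ⟨A, H, D, s, w, τ, x, i0, hrep, hbase, hi0, ?_, hvan⟩
        rcases hcase with h | ⟨i, i', h1, h2, -⟩
        · exact h
        · exact absurd (hcon i i' h1) h2
      · obtain ⟨-, i, i', h1, h2⟩ := O9.exc_pair (k := I.k) hk9 (fun i => l i) (fun i => c i)
          (fun n => ((v n : ℚ) : ℝ)) (I.all_simple aR uR ha hu v hv hS hrd) _ _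
          (Nat.mul_pos hn0 hN') hexc
        exact absurd (hcon i i' h1) (h2 n0 hn0)
    have hn2 : 2 ^ pthN C L P P2 ≤ n :=
      le_trans (Nat.pow_le_pow_right (by norm_num) (by omega)) hn
    have hn3 : 2 ^ pth2 L (P + 1) P2 ≤ n := by
      refine le_trans (Nat.pow_le_pow_right (by norm_num) ?_) hn2
      unfold pthN
      exact Nat.le_add_right _ _
    -- the class of `n`
    have hpbn : 2 ^ (1 + 2 * L * L + (pdl L + 3) * L) + 2 ^ (1 + 2 * L * L + (pdl L + 3) * L) =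
        2 ^ pbn L := by
      rw [pbn, pow_succ]
      ring
    have hk1 : I.k ≤ 2 ^ (1 + 2 * L * L + (pdl L + 3) * L) := by
      refine hkL.trans (Nat.lt_two_pow_self.le.trans (Nat.pow_le_pow_right (by norm_num) ?_))
      have : L ≤ (pdl L + 3) * L := Nat.le_mul_of_pos_left _ (by omega)
      omega
    have hkn : I.k ≤ n := by
      refine hkL.trans (Nat.lt_two_pow_self.le.trans (le_trans ?_ hn3))
      apply Nat.pow_le_pow_right (by norm_num)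
      unfold pth2
      omega
    obtain ⟨j, m, hj, hj', hjm⟩ : ∃ j m, I.k ≤ j ∧ j < I.k + n0 ∧ n = j + n0 * m := by
      refine ⟨I.k + (n - I.k) % n0, (n - I.k) / n0, Nat.le_add_right _ _,
        Nat.add_lt_add_left (Nat.mod_lt _ hn0) _, ?_⟩
      have := Nat.mod_add_div (n - I.k) n0
      omega
    rcases hcls j hj hj' with hD | ⟨N', J', hN', hexc⟩
    swap
    · rw [hjm] at hn9 ⊢
      exact I.exc_pos L hkL hb hbu aR uR ha hu v hv hS hUv hk9 C9 hC9 hrd E n0 hE0 hEle hEtor hn0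
        hEn0 j m N' J' hN' hexc hn9
    obtain ⟨A, H, D, s, w, τ, x, i0, hrep, hbase, hi0, ⟨z', hz', hne⟩, hF, hcase, hvan⟩ := hD
    have hjN : j ≤ 2 ^ pbn L := by omega
    obtain ⟨i, i', hii, hpne, hfin⟩ : ∃ i i' : Fin I.k, ‖l i‖ = ‖l i'‖ ∧ l i ^ n0 ≠ l i' ^ n0 ∧
        ((fun z : Fin I.k → ℂ => (l i / l i') ^ j * (Wt A s z i / Wt A s z i')) ''
        {z | (∀ t, ‖z t‖ = 1) ∧ (LevF (fun i : Fin I.k => l i) (fun i => c i) (fun i => ex i) A s j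
          0 ‖l i0‖ z).re = 0}).Finite := by
      rcases hcase with h | ⟨i, i', h1, h2, h3⟩
      · refine ⟨a, a', haa, hane, ?_⟩
        have h5 : {z : Fin I.k → ℂ | (∀ t, ‖z t‖ = 1) ∧ (LevF (fun i : Fin I.k => l i)
            (fun i => c i) (fun i => ex i) A s j 0 ‖l i0‖ z).re = 0} = ∅ := by
          ext z
          simp only [Set.mem_ofPred_eq, Set.mem_empty_iff_false, iff_false, not_and]
          intro hz
          exact (h z hz).ne'
        rw [h5, Set.image_empty]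
        exact Set.finite_empty
      · exact ⟨i, i', h1, h2, h3⟩
    have hsmall : ∀ b : ℕ, b ≤ 2 ^ pbn L → b ≤ 2 ^ (pbn L + L) := fun b hb =>
      hb.trans (Nat.pow_le_pow_right (by norm_num) (Nat.le_add_right _ _))
    have hsmall2 : ∀ b : Fin I.k, (b : ℕ) ≤ 2 ^ (pbn L + L) := fun b =>
      (b.2.le.trans hkL).trans (Nat.lt_two_pow_self.le.trans
        (Nat.pow_le_pow_right (by norm_num) (Nat.le_add_left _ _)))
    have hgt := gap_threshold C L P P2 n j hn2 hjN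
    have hnj : n - j = n0 * m := by omega
    rw [hnj] at hgt
    have hlow := I.level_lowerU L hkL hb aR uR ha hu v hv C hC P hS hU hrd hsort n0 j hn0 A H D s w
      τ x i0 hrep hbase hi0 z' hz' hne hF hvan i i' hii hpne (htor i i' hii hpne) hfin
      (hP i i' n0 j (hsmall2 i) (hsmall2 i') (hsmall n0 (by omega)) (hsmall j hjN)) m hgt
    have hCc : ∑ i : Fin I.k, ‖c i‖ ≤ 2 ^ 2 ^ P2 := by
      apply hP2
      refine ⟨l, c, ex, hrd, ?_⟩
      rw [Finset.sum_range]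
    have hfinal := class_pos (k := I.k) (fun i => l i) (fun i => c i) (fun i => ex i)
      (fun i => hrd.1 i i.2) n0 j hj (fun n => ((v n : ℚ) : ℝ)) (I.all' aR uR ha hu v hv hrd)
      ‖l i0‖ (norm_pos_iff.mpr hi0) hvan
      (Real.exp (-((n0 * m : ℕ) : ℝ) / ((2 ^ (pg L + 1) : ℕ) : ℝ)) / 2 ^ 2 ^ P / 2 ^ 2 ^ P)
      (1 / 2 ^ pg L) (2 ^ (2 * L)) (by
        rw [div_le_one (by positivity)]
        exact one_le_pow₀ (by norm_num)) (one_le_pow₀ (by norm_num))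
      (fun i => root_norm_le I.k I.num I.den L hkL I.den_pos' (I.num_le' L hb) (l i)
        (I.root_eq' aR uR ha hrd i))
      (fun i hi => gap_of_roots I.k I.num I.den L hkL I.den_pos' (I.num_le' L hb) (I.den_le' L hb)
        (l i) (l i0) (I.root_eq' aR uR ha hrd i) (I.root_eq' aR uR ha hrd i0) hi) m
      (by
        rw [levelSum_eq (fun i : Fin I.k => l i) (fun i => c i) (fun i => ex i) n0 j 0
          ‖l i0‖ s A x hrep.1 hrep.2 m]
        exact hlow) (by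
        have h1 := threshold_ineq2 I.k L (P + 1) P2 n j hkL hn3 hjN _ hCc
        have h2 := decay_le (pg L) (n0 * m)
        rw [hnj] at h1
        rw [← hjm]
        have h3 : 0 < Real.exp (-((n0 * m : ℕ) : ℝ) / ((2 ^ (pg L + 1) : ℕ) : ℝ)) := Real.exp_pos _
        have h4 : (0 : ℝ) ≤ (∑ i : Fin I.k, ‖c i‖) * (n : ℝ) ^ I.k * ((2 : ℝ) ^ (2 * L)) ^ j := by
          positivity
        have h5 : (1 : ℝ) / 2 ^ 2 ^ (P + 1) = 1 / 2 ^ 2 ^ P / 2 ^ 2 ^ P := by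
          rw [pow_succ 2 P, mul_two, pow_add]
          field_simp
        calc (∑ i : Fin I.k, ‖c i‖) * (n : ℝ) ^ I.k * ((2 : ℝ) ^ (2 * L)) ^ j *
              (1 - 1 / 2 ^ pg L) ^ (n0 * m)
            ≤ (∑ i : Fin I.k, ‖c i‖) * (n : ℝ) ^ I.k * ((2 : ℝ) ^ (2 * L)) ^ j *
              (Real.exp (-((n0 * m : ℕ) : ℝ) / 2 ^ (pg L + 1)) *
                Real.exp (-((n0 * m : ℕ) : ℝ) / ((2 ^ (pg L + 1) : ℕ) : ℝ))) :=
              mul_le_mul_of_nonneg_left h2 h4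
          _ = ((∑ i : Fin I.k, ‖c i‖) * (n : ℝ) ^ I.k * ((2 : ℝ) ^ (2 * L)) ^ j *
              Real.exp (-((n0 * m : ℕ) : ℝ) / 2 ^ (pg L + 1))) *
                Real.exp (-((n0 * m : ℕ) : ℝ) / ((2 ^ (pg L + 1) : ℕ) : ℝ)) := by ring
          _ < 1 / 2 ^ 2 ^ (P + 1) *
                Real.exp (-((n0 * m : ℕ) : ℝ) / ((2 ^ (pg L + 1) : ℕ) : ℝ)) :=
              mul_lt_mul_of_pos_right h1 h3
          _ = _ := by
              rw [h5]
              ring)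
    rw [← hjm] at hfinal
    exact_mod_cast hfinal

end

end Pool.Agent.UltPos
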